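import Mathlib

/-!
# Morphisms to an injective object placed in one degree, in the derived category
-/

open CategoryTheory Limits

namespace Pool.Agent.K1H1.GA

universe w v u

variable {C : Type u} [Category.{v} C] [Abelian C]

/-- An object placed in degree `p`. -/
noncomputable abbrev sg (p : ℤ) (X : C) : CochainComplex C ℤ :=
  (HomologicalComplex.single C (ComplexShape.up ℤ) p).obj X

lemma sg_kInj (I : C) [Injective I] (p : ℤ) : (sg p I).IsKInjective := by
  have h1 : ∀ n, Injective ((sg p I).X n) := by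
    intro n
    by_cases h : n = p
    · subst h
      exact Injective.of_iso (HomologicalComplex.singleObjXSelf (ComplexShape.up ℤ) n I).symm
        inferInstance
    · have hz := HomologicalComplex.isZero_single_obj_X (ComplexShape.up ℤ) p I n h
      exact Injective.of_iso hz.isoZero.symm inferInstance
  exact CochainComplex.isKInjective_of_injective _ p

variable [HasDerivedCategory.{w} C]

open DerivedCategory

lemma exists_Q_map (I : C) [Injective I] (p : ℤ) (K : CochainComplex C ℤ)
    (f : Q.obj K ⟶ Q.obj (sg p I)) : ∃ u : K ⟶ sg p I, f = Q.map u := by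
  have := sg_kInj I p
  obtain ⟨g, hg⟩ := (CochainComplex.IsKInjective.Qh_map_bijective
    ((HomotopyCategory.quotient _ _).obj K) (sg p I)).surjective
    ((quotientCompQhIso C).hom.app K ≫ f ≫ (quotientCompQhIso C).inv.app (sg p I))
  obtain ⟨u, rfl⟩ := (HomotopyCategory.quotient _ _).map_surjective g
  refine ⟨u, ?_⟩
  have h2 := quotientCompQhIso_hom_naturality (C := C) u
  rw [hg] at h2
  simp only [Category.assoc, Iso.inv_hom_id_app, Functor.comp_obj] at h2
  erw [Category.comp_id] at h2
  exact (cancel_epi _).mp h2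

lemma Q_map_eq_zero_imp (I : C) [Injective I] (p : ℤ) (K : CochainComplex C ℤ)
    (u : K ⟶ sg p I) (hu : Q.map u = 0) : Nonempty (Homotopy u 0) := by
  have := sg_kInj I p
  have h1 : Qh.map ((HomotopyCategory.quotient _ _).map u) = 0 := by
    have h2 := quotientCompQhIso_hom_naturality (C := C) u
    rw [hu, comp_zero] at h2
    exact (cancel_mono ((quotientCompQhIso C).hom.app (sg p I))).mp (h2.trans zero_comp.symm)
  have h3 : (HomotopyCategory.quotient C (ComplexShape.up ℤ)).map u = 0 :=
    (CochainComplex.IsKInjective.Qh_map_bijective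
      ((HomotopyCategory.quotient _ _).obj K) (sg p I)).injective (by rw [h1, Functor.map_zero])
  exact ⟨HomotopyCategory.homotopyOfEq _ _ (by rw [h3, Functor.map_zero])⟩

/-- The component in degree `p` of a morphism to an object in degree `p`. -/
noncomputable def cmp {I : C} {p : ℤ} {K : CochainComplex C ℤ} (u : K ⟶ sg p I) : K.X p ⟶ I :=
  u.f p ≫ (HomologicalComplex.singleObjXSelf (ComplexShape.up ℤ) p I).hom

/-- The morphism to an object in degree `p` with a given component. -/
noncomputable def mk {I : C} {p : ℤ} {K : CochainComplex C ℤ} (φ : K.X p ⟶ I)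
    (hφ : ∀ i, i + 1 = p → K.d i p ≫ φ = 0) : K ⟶ sg p I :=
  HomologicalComplex.mkHomToSingle φ hφ

omit [HasDerivedCategory.{w} C] in
lemma cmp_mk {I : C} {p : ℤ} {K : CochainComplex C ℤ} (φ : K.X p ⟶ I)
    (hφ : ∀ i, i + 1 = p → K.d i p ≫ φ = 0) : cmp (mk φ hφ) = φ := by
  rw [cmp, mk, HomologicalComplex.mkHomToSingle_f, Category.assoc, Iso.inv_hom_id,
    Category.comp_id]

omit [HasDerivedCategory.{w} C] in
lemma ext_cmp {I : C} {p : ℤ} {K : CochainComplex C ℤ} {u v : K ⟶ sg p I}
    (h : cmp u = cmp v) : u = v := by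
  apply HomologicalComplex.to_single_hom_ext
  exact (cancel_mono _).mp h

omit [HasDerivedCategory.{w} C] in
lemma d_cmp {I : C} {p : ℤ} {K : CochainComplex C ℤ} (u : K ⟶ sg p I) (i : ℤ) :
    K.d i p ≫ cmp u = 0 := by
  rw [cmp, ← Category.assoc, ← u.comm, HomologicalComplex.single_obj_d, comp_zero, zero_comp]

lemma cmp_of_zero (I : C) [Injective I] (p : ℤ) (K : CochainComplex C ℤ)
    (u : K ⟶ sg p I) (hu : Q.map u = 0) : ∃ h : K.X (p + 1) ⟶ I, cmp u = K.d p (p + 1) ≫ h := by
  obtain ⟨H⟩ := Q_map_eq_zero_imp I p K u hu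
  refine ⟨H.hom (p + 1) p ≫ (HomologicalComplex.singleObjXSelf (ComplexShape.up ℤ) p I).hom, ?_⟩
  have h1 := H.comm p
  rw [dNext_eq H.hom (show (ComplexShape.up ℤ).Rel p (p + 1) from rfl),
    prevD_eq H.hom (show (ComplexShape.up ℤ).Rel (p - 1) p from by simp),
    HomologicalComplex.single_obj_d, comp_zero, add_zero] at h1
  rw [cmp, h1]
  simp

lemma zero_of_cmp (I : C) (p : ℤ) (K : CochainComplex C ℤ)
    (u : K ⟶ sg p I) (h : K.X (p + 1) ⟶ I) (hu : cmp u = K.d p (p + 1) ≫ h) : Q.map u = 0 := by
  let H : Homotopy u 0 :=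
    { hom := fun i j => if hj : j = p ∧ i = p + 1 then
        (K.XIsoOfEq hj.2).hom ≫ h ≫
          (HomologicalComplex.singleObjXIsoOfEq (ComplexShape.up ℤ) p I j hj.1).inv else 0
      zero := fun i j hij => by
        rw [dif_neg]
        rintro ⟨rfl, rfl⟩
        exact hij rfl
      comm := fun i => by
        by_cases hi : i = p
        · subst hi
          rw [dNext_eq _ (show (ComplexShape.up ℤ).Rel i (i + 1) from rfl),
            prevD_eq _ (show (ComplexShape.up ℤ).Rel (i - 1) i from by simp),
            HomologicalComplex.single_obj_d, comp_zero, add_zero, dif_pos ⟨rfl, rfl⟩,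
            ← cancel_mono (HomologicalComplex.singleObjXSelf (ComplexShape.up ℤ) i I).hom]
          simp only [HomologicalComplex.XIsoOfEq_rfl, Iso.refl_hom, Category.id_comp,
            Category.assoc, HomologicalComplex.zero_f, add_zero]
          refine hu.trans ?_
          congr 1
          have : (HomologicalComplex.singleObjXIsoOfEq (ComplexShape.up ℤ) i I i rfl).inv ≫
            (HomologicalComplex.singleObjXSelf (ComplexShape.up ℤ) i I).hom = 𝟙 I :=
            Iso.inv_hom_id _
          rw [this, Category.comp_id]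
        · exact (HomologicalComplex.isZero_single_obj_X (ComplexShape.up ℤ) p I i hi).eq_of_tgt _ _ }
  exact (Q_map_eq_of_homotopy _ H).trans (Functor.map_zero _ _ _)

omit [HasDerivedCategory.{w} C] in
lemma cmp_sub {I : C} {p : ℤ} {K : CochainComplex C ℤ} (u v : K ⟶ sg p I) :
    cmp (u - v) = cmp u - cmp v := by
  rw [cmp, cmp, cmp, HomologicalComplex.sub_f_apply, Preadditive.sub_comp]

omit [HasDerivedCategory.{w} C] in
lemma cmp_comp {I J : C} {p : ℤ} {K : CochainComplex C ℤ} (u : K ⟶ sg p I) (v : sg p I ⟶ sg p J) :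
    cmp (u ≫ v) = cmp u ≫ (HomologicalComplex.singleObjXSelf (ComplexShape.up ℤ) p I).inv ≫
      cmp v := by
  rw [cmp, cmp, cmp, HomologicalComplex.comp_f]
  simp

omit [HasDerivedCategory.{w} C] in
lemma cmp_single {I J : C} {p : ℤ} {K : CochainComplex C ℤ} (u : K ⟶ sg p I) (v : I ⟶ J) :
    cmp (u ≫ (HomologicalComplex.single C (ComplexShape.up ℤ) p).map v) = cmp u ≫ v := by
  rw [cmp, cmp, HomologicalComplex.comp_f, HomologicalComplex.single_map_f_self]
  simp

/-- Shifts of objects in one degree. -/
noncomputable def shiftSg (I : C) (i : ℤ) : (Q.obj (sg 0 I))⟦i⟧ ≅ Q.obj (sg (-i) I) :=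
  (shiftFunctor (DerivedCategory C) i).mapIso ((singleFunctorIsoCompQ C 0).symm.app I) ≪≫
    ((singleFunctors C).shiftIso i (-i) 0 (by ring)).app I ≪≫
    (singleFunctorIsoCompQ C (-i)).app I

end Pool.Agent.K1H1.GA
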