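import Mathlib

/-!
# A Künneth-type computation for bilinear forms on a complex of vector spaces
-/

namespace Pool.Agent.K1H1.GA

lemma exists_pinv {A B : Type*} [AddCommGroup A] [Module ℂ A] [AddCommGroup B] [Module ℂ B]
    (f : A →ₗ[ℂ] B) : ∃ g : B →ₗ[ℂ] A, ∀ x, f (g (f x)) = f x := by
  obtain ⟨g0, hg0⟩ := f.rangeRestrict.exists_rightInverse_of_surjective
    (LinearMap.range_rangeRestrict f)
  obtain ⟨g, hg⟩ := g0.exists_extend
  refine ⟨g, fun x => ?_⟩
  have h1 : g (f x) = g0 (f.rangeRestrict x) := LinearMap.congr_fun hg (f.rangeRestrict x)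
  have h2 := LinearMap.congr_fun hg0 (f.rangeRestrict x)
  rw [h1]
  exact congrArg Subtype.val h2

section

variable (R : ℤ → Type) [∀ p, AddCommGroup (R p)] [∀ p, Module ℂ (R p)]
  (d : ∀ p q, R p →ₗ[ℂ] R q)

theorem lin (hdd : ∀ p q r, p + 1 = q → q + 1 = r → ∀ x, d q r (d p q x) = 0)
    (H1 : ∀ p q r, p + 1 = q → q + 1 = r → 0 < q → ∀ x : R q, d q r x = 0 → ∃ y, d p q y = x)
    (f0 : ∀ p, R p →ₗ[ℂ] ℂ) (hf0 : ∀ p, p ≠ 0 → f0 p = 0)
    (H2 : ∀ f : R 0 →ₗ[ℂ] ℂ, (∀ x, f (d (-1) 0 x) = 0) →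
      ∃ (c : ℂ) (h : R 1 →ₗ[ℂ] ℂ), ∀ x, f x = c * f0 0 x + h (d 0 1 x))
    (σ : ℤ → ℂ) (hσ1 : ∀ p, σ (p + 1) = -σ p) (hσ2 : ∀ p, σ p * σ p = 1) :
    ∃ Γ : ∀ p, R p →ₗ[ℂ] ℂ, (∀ p, p ≠ 0 → Γ p = 0) ∧
      (∀ p q, p + 1 = q → ∀ x, Γ q (d p q x) = 0) ∧
      ∀ φ : ∀ p q, R p →ₗ[ℂ] R q →ₗ[ℂ] ℂ,
        (∀ p p' q q', p + 1 = p' → q + 1 = q' → p + q' = 0 → ∀ x y,
          φ p' q (d p p' x) y + σ p * φ p q' x (d q q' y) = 0) →
        ∃ (c : ℂ) (ψ : ∀ p q, R p →ₗ[ℂ] R q →ₗ[ℂ] ℂ), ∀ p p' q q', p + 1 = p' → q + 1 = q' →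
          p + q = 0 → ∀ x y, φ p q x y = c * (Γ p x * Γ q y) + ψ p' q (d p p' x) y +
            σ p * ψ p q' x (d q q' y) := by
  choose s hs using fun p q => exists_pinv (d p q)
  -- projections
  let Q : ∀ p, R p →ₗ[ℂ] R p := fun p => d (p - 1) p ∘ₗ s (p - 1) p
  let S : ∀ p q, R q →ₗ[ℂ] R p := fun p q =>
    (LinearMap.id - Q p) ∘ₗ s p q ∘ₗ d p q ∘ₗ s p q
  let π : ∀ p, R p →ₗ[ℂ] R p := fun p =>
    (LinearMap.id - Q p) ∘ₗ (LinearMap.id - s p (p + 1) ∘ₗ d p (p + 1))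
  have hQ : ∀ p x, Q p x = d (p - 1) p (s (p - 1) p x) := fun p x => rfl
  have hS : ∀ p q x, S p q x = s p q (d p q (s p q x)) - Q p (s p q (d p q (s p q x))) :=
    fun p q x => rfl
  have hπ : ∀ p x, π p x = (x - s p (p + 1) (d p (p + 1) x)) -
      Q p (x - s p (p + 1) (d p (p + 1) x)) := fun p x => rfl
  have dQ : ∀ p q, p + 1 = q → ∀ x, d p q (Q p x) = 0 := by
    intro p q hpq x
    rw [hQ]
    exact hdd _ _ _ (by ring) hpq _
  have Qd : ∀ p x, Q p (d (p - 1) p x) = d (p - 1) p x := fun p x => by rw [hQ, hs]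
  have dS : ∀ p x, d (p - 1) p (S (p - 1) p x) = Q p x := by
    intro p x
    rw [hS, map_sub, hs, dQ (p - 1) p (by ring), sub_zero, hQ]
  have Sd : ∀ p q x, S p q (d p q x) = s p q (d p q x) - Q p (s p q (d p q x)) := by
    intro p q x
    rw [hS, hs]
  have F1 : ∀ p x, d (p - 1) p (S (p - 1) p x) + S p (p + 1) (d p (p + 1) x) = x - π p x := by
    intro p x
    rw [dS, Sd, hπ, map_sub]
    abel
  have F2 : ∀ p q, p + 1 = q → ∀ x, π q (d p q x) = 0 := by
    rintro p q hpq x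
    obtain rfl : p = q - 1 := by omega
    rw [hπ, hdd (q - 1) q (q + 1) hpq rfl, map_zero, sub_zero, Qd, sub_self]
  have F3 : ∀ p q, p + 1 = q → ∀ x, d p q (π p x) = 0 := by
    rintro p q rfl x
    rw [hπ, map_sub, dQ p (p + 1) rfl, sub_zero, map_sub, hs, sub_self]
  have F4 : ∀ p, 0 < p → ∀ x, π p x = 0 := by
    intro p hp x
    obtain ⟨y, hy⟩ := H1 (p - 1) p (p + 1) (by ring) rfl hp (x - s p (p + 1) (d p (p + 1) x))
      (by rw [map_sub, hs, sub_self])
    rw [hπ, ← hy, Qd, sub_self]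
  have F5 : ∀ p x, π p (π p x) = π p x := by
    intro p x
    have h1 : d p (p + 1) (π p x) = 0 := F3 p _ rfl x
    have hQQ : ∀ z, Q p (Q p z) = Q p z := fun z => by
      rw [hQ p (Q p z), hQ p z, hs]
    have hu : ∀ u, Q p (u - Q p u) = 0 := fun u => by rw [map_sub, hQQ, sub_self]
    rw [hπ p (π p x), h1, map_zero, sub_zero, hπ p x, hu, sub_zero]
  have F6 : ∀ x, f0 0 (π 0 x) = 0 → π 0 x = 0 := by
    intro x hx
    rw [← Module.forall_dual_apply_eq_zero_iff ℂ]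
    intro u
    obtain ⟨c, h, hc⟩ := H2 (u ∘ₗ π 0) (fun y => by
      rw [LinearMap.comp_apply, F2 (-1) 0 (by norm_num), map_zero])
    have := hc (π 0 x)
    rw [LinearMap.comp_apply, F5, hx, F3 0 1 (by norm_num), map_zero, mul_zero, zero_add] at this
    exact this
  clear_value π S Q
  refine ⟨fun p => f0 p ∘ₗ π p, fun p hp => by
      show f0 p ∘ₗ π p = 0
      rw [hf0 p hp, LinearMap.zero_comp],
    fun p q hpq x => by
      show f0 q (π q (d p q x)) = 0
      rw [F2 p q hpq, map_zero], ?_⟩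
  intro φ hφ
  obtain ⟨c, hc⟩ : ∃ c : ℂ, ∀ x y, φ 0 0 (π 0 x) (π 0 y) = c * (f0 0 (π 0 x) * f0 0 (π 0 y)) := by
    by_cases hz : ∃ z, f0 0 (π 0 z) ≠ 0
    · obtain ⟨z, hz⟩ := hz
      have key : ∀ x, π 0 x = (f0 0 (π 0 x) / f0 0 (π 0 z)) • π 0 z := by
        intro x
        have h1 : π 0 (x - (f0 0 (π 0 x) / f0 0 (π 0 z)) • z) = 0 := by
          apply F6
          rw [map_sub, map_smul, map_sub, map_smul, smul_eq_mul, div_mul_cancel₀ _ hz, sub_self]
        rw [map_sub, map_smul, sub_eq_zero] at h1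
        exact h1
      refine ⟨φ 0 0 (π 0 z) (π 0 z) / (f0 0 (π 0 z) * f0 0 (π 0 z)), fun x y => ?_⟩
      conv_lhs => rw [key x, key y]
      rw [map_smul, map_smul, LinearMap.smul_apply, smul_eq_mul, smul_eq_mul]
      field_simp
    · push Not at hz
      refine ⟨0, fun x y => ?_⟩
      rw [F6 x (hz x), map_zero, LinearMap.zero_apply, zero_mul]
  have hc' : ∀ p q, p + q = 0 → ∀ x y, φ p q (π p x) (π q y) =
      c * (f0 p (π p x) * f0 q (π q y)) := by
    intro p q hpq x y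
    by_cases hp : p = 0
    · subst hp
      obtain rfl : q = 0 := by omega
      exact hc x y
    · rw [hf0 p hp, LinearMap.zero_apply, zero_mul, mul_zero]
      rcases lt_or_gt_of_ne hp with h | h
      · rw [F4 q (by omega), map_zero]
      · rw [F4 p h, map_zero, LinearMap.zero_apply]
  refine ⟨c, fun p q => ?_, ?_⟩
  · exact (φ (p - 1) q) ∘ₗ (S (p - 1) p) +
      σ p • ((φ p (q - 1)).compl₁₂ (π p) (S (q - 1) q))
  · rintro p p' q q' rfl rfl hpq x y
    have e1 : ((φ (p + 1 - 1) q) ∘ₗ (S (p + 1 - 1) (p + 1)) +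
      σ (p + 1) • ((φ (p + 1) (q - 1)).compl₁₂ (π (p + 1)) (S (q - 1) q))) (d p (p + 1) x) y =
        φ p q (S p (p + 1) (d p (p + 1) x)) y := by
      have h0 : p + 1 - 1 = p := by ring
      rw [LinearMap.add_apply, LinearMap.add_apply, LinearMap.comp_apply, LinearMap.smul_apply,
        LinearMap.smul_apply, LinearMap.compl₁₂_apply, F2 p _ rfl, map_zero, LinearMap.zero_apply,
        smul_zero, add_zero]
      rw [h0]
    have e2 : ((φ (p - 1) (q + 1)) ∘ₗ (S (p - 1) p) +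
      σ p • ((φ p (q + 1 - 1)).compl₁₂ (π p) (S (q + 1 - 1) (q + 1)))) x (d q (q + 1) y) =
        φ (p - 1) (q + 1) (S (p - 1) p x) (d q (q + 1) y) +
          σ p * φ p q (π p x) (S q (q + 1) (d q (q + 1) y)) := by
      have h0 : q + 1 - 1 = q := by ring
      rw [LinearMap.add_apply, LinearMap.add_apply, LinearMap.comp_apply, LinearMap.smul_apply,
        LinearMap.smul_apply, LinearMap.compl₁₂_apply, smul_eq_mul]
      rw [h0]
    rw [e1, e2]
    show φ p q x y = c * (f0 p (π p x) * f0 q (π q y)) + _ + _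
    rw [← hc' p q hpq]
    -- use the cocycle identities
    have k1 := hφ (p - 1) p q (q + 1) (by ring) rfl (by omega) (S (p - 1) p x) y
    have hσ : σ p = -σ (p - 1) := by
      have := hσ1 (p - 1)
      rwa [sub_add_cancel] at this
    have k2 := hφ p (p + 1) (q - 1) q rfl (by ring) hpq (π p x) (S (q - 1) q y)
    rw [F3 p _ rfl, map_zero, LinearMap.zero_apply, zero_add] at k2
    have hne : σ p ≠ 0 := by
      intro h
      have := hσ2 p
      rw [h, mul_zero] at this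
      exact zero_ne_one this
    have k3 : φ p q (π p x) (d (q - 1) q (S (q - 1) q y)) = 0 := by
      rcases mul_eq_zero.mp k2 with h | h
      · exact absurd h hne
      · exact h
    have k4 : φ p q (π p x) (S q (q + 1) (d q (q + 1) y)) =
        φ p q (π p x) y - φ p q (π p x) (π q y) := by
      have := congrArg (φ p q (π p x)) (F1 q y)
      rw [map_add, map_sub, k3, zero_add] at this
      exact this
    have k5 : φ p q (S p (p + 1) (d p (p + 1) x)) y =
        φ p q x y - φ p q (π p x) y - φ p q (d (p - 1) p (S (p - 1) p x)) y := by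
      have := congrArg (fun t => φ p q t y) (F1 p x)
      simp only [map_add, map_sub, LinearMap.add_apply, LinearMap.sub_apply] at this
      rw [← this]
      ring
    have k6 := hσ2 p
    rw [k4, k5]
    have k7 : σ p * φ (p - 1) (q + 1) (S (p - 1) p x) (d q (q + 1) y) =
        φ p q (d (p - 1) p (S (p - 1) p x)) y := by
      rw [hσ]
      linear_combination (-1 : ℂ) * k1
    rw [mul_add, k7]
    linear_combination (φ p q (π p x) (π q y) - φ p q (π p x) y) * k6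

end

end Pool.Agent.K1H1.GA
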