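import Pool.Agent.K1H1.GA.Coinv
import Pool.Agent.K1H1.GA.Der
import Pool.Agent.K1H1.GA.Lin

/-!
# Duals of objects with cyclic dual, for the general affine group
-/

open CategoryTheory Limits MonoidalCategory TensorProduct Representation HomologicalComplex

namespace Pool.Agent.K1H1.GA

universe w

/-- The morphisms `X ⟶ Y` form a cyclic module over the endomorphisms of `Y`. -/
def Cyc {D : Type*} [Category* D] (X Y : D) : Prop :=
  ∃ f0 : X ⟶ Y, ∀ f : X ⟶ Y, ∃ c : Y ⟶ Y, f = f0 ≫ c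

/-- The unit for the affine group. -/
noncomputable abbrev II : Cat (std GAinf) := unitC (std GAinf)

instance inj_II : Injective II := inj_unit

section

variable (K T : CochainComplex (Cat (std GAinf)) ℤ)

/-- The coinvariants of the terms. -/
abbrev RR (p : ℤ) : Type := Co (K.X p).obj

/-- The differentials on the coinvariants. -/
noncomputable def dd (p q : ℤ) : RR K p →ₗ[ℂ] RR K q := cmap (K.d p q).hom

lemma dd_cmk (p q : ℤ) (x : (K.X p).obj.V) :
    dd K p q (cmk _ x) = cmk _ ((K.d p q).hom.hom x) := rfl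

/-- A functional on coinvariants as a morphism. -/
noncomputable def ofR {p : ℤ} (b : RR K p →ₗ[ℂ] ℂ) : K.X p ⟶ II :=
  ObjectProperty.homMk (ofF b)

/-- The functional underlying a morphism to the unit. -/
noncomputable def val {X : Cat (std GAinf)} (f : X ⟶ II) : X.obj.V →ₗ[ℂ] ℂ := f.hom.hom.toLinearMap

lemma val_comp {X Y : Cat (std GAinf)} (f : X ⟶ Y) (g : Y ⟶ II) (x : X.obj.V) :
    val (f ≫ g) x = val g (f.hom.hom x) := rfl

lemma val_add {X : Cat (std GAinf)} (f g : X ⟶ II) (x : X.obj.V) :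
    val (f + g) x = val f x + val g x := rfl

lemma val_sub {X : Cat (std GAinf)} (f g : X ⟶ II) (x : X.obj.V) :
    val (f - g) x = val f x - val g x := rfl

lemma val_ofR {p : ℤ} (b : RR K p →ₗ[ℂ] ℂ) (x : (K.X p).obj.V) :
    val (ofR K b) x = b (cmk _ x) := rfl

lemma exists_toR {X : Cat (std GAinf)} (g : X ⟶ II) :
    ∃ b : Co X.obj →ₗ[ℂ] ℂ, ∀ x, b (cmk _ x) = val g x := exists_toF' g.hom

lemma ext_unit {X : Cat (std GAinf)} {f g : X ⟶ II} (h : ∀ x : X.obj.V, val f x = val g x) :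
    f = g := by
  ext1
  ext1
  apply Representation.IntertwiningMap.toLinearMap_injective
  exact LinearMap.ext h

lemma d_ofR {p q : ℤ} (b : RR K q →ₗ[ℂ] ℂ) (hb : ∀ x, b (dd K p q x) = 0) :
    K.d p q ≫ ofR K b = 0 := by
  apply ext_unit
  intro x
  exact hb (cmk _ x)

lemma end_scalar (a : II ⟶ II) : ∃ s : ℂ, ∀ (X : Cat (std GAinf)) (f : X ⟶ II) (x : X.obj.V),
    val (f ≫ a) x = s * val f x := by
  let A : ℂ →ₗ[ℂ] ℂ := val a
  refine ⟨A 1, fun X f x => ?_⟩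
  have h1 : A (val f x • (1 : ℂ)) = val f x • A 1 := map_smul _ _ _
  rw [smul_eq_mul, mul_one] at h1
  exact h1.trans (mul_comm _ _)

variable [HasDerivedCategory.{w} (Cat (std GAinf))]

open DerivedCategory

lemma exact_pos (q : ℤ) (h : Subsingleton (Q.obj K ⟶ Q.obj (sg q II))) (p r : ℤ)
    (hp : p + 1 = q) (hr : q + 1 = r) (x : RR K q) (hx : dd K q r x = 0) :
    ∃ y, dd K p q y = x := by
  by_contra hne
  have hx' : x ∉ LinearMap.range (dd K p q) := fun ⟨y, hy⟩ => hne ⟨y, hy⟩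
  obtain ⟨f, hf, hf2⟩ := Submodule.exists_dual_map_eq_bot_of_notMem hx' inferInstance
  have hfd : ∀ y, f (dd K p q y) = 0 := fun y => by
    have h1 : f (dd K p q y) ∈ (LinearMap.range (dd K p q)).map f := ⟨_, ⟨y, rfl⟩, rfl⟩
    rw [hf2] at h1
    exact h1
  let u : K ⟶ sg q II := mk (ofR K f) fun i hi => by
    obtain rfl : i = p := by omega
    exact d_ofR K f hfd
  obtain ⟨g, hg⟩ := cmp_of_zero II q K u (Subsingleton.elim _ _)
  rw [show cmp u = ofR K f from cmp_mk _ _] at hg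
  subst hr
  obtain ⟨b, hb⟩ := exists_toR g
  obtain ⟨x', rfl⟩ := cmk_surj _ x
  apply hf
  have h1 : f (cmk _ x') = val (K.d q (q + 1) ≫ g) x' := by rw [← hg]; rfl
  rw [h1, val_comp, ← hb, ← dd_cmk, hx, map_zero]

lemma cyc_zero (u0 : K ⟶ sg 0 II)
    (h : ∀ f : Q.obj K ⟶ Q.obj (sg 0 II), ∃ c, f = Q.map u0 ≫ c)
    (b0 : RR K 0 →ₗ[ℂ] ℂ) (hb0 : ∀ x, b0 (cmk _ x) = val (cmp u0) x)
    (f : RR K 0 →ₗ[ℂ] ℂ) (hf : ∀ x, f (dd K (-1) 0 x) = 0) :
    ∃ (c : ℂ) (h : RR K 1 →ₗ[ℂ] ℂ), ∀ x, f x = c * b0 x + h (dd K 0 1 x) := by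
  let u : K ⟶ sg 0 II := mk (ofR K f) fun i hi => by
    obtain rfl : i = -1 := by omega
    exact d_ofR K f hf
  obtain ⟨c, hc⟩ := h (Q.map u)
  obtain ⟨c', rfl⟩ := exists_Q_map II 0 (sg 0 II) c
  have h1 : Q.map (u - u0 ≫ c') = 0 := by
    rw [Functor.map_sub, Functor.map_comp, hc, sub_self]
  obtain ⟨g, hg⟩ := cmp_of_zero II 0 K _ h1
  rw [cmp_sub, cmp_comp, show cmp u = ofR K f from cmp_mk _ _, sub_eq_iff_eq_add] at hg
  obtain ⟨s, hs⟩ := end_scalar
    ((HomologicalComplex.singleObjXSelf (ComplexShape.up ℤ) 0 II).inv ≫ cmp c')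
  obtain ⟨b, hb⟩ := exists_toR g
  refine ⟨s, b, fun x => ?_⟩
  obtain ⟨x', rfl⟩ := cmk_surj _ x
  have h2 : f (cmk _ x') = val (K.d 0 (0 + 1) ≫ g +
    cmp u0 ≫ (HomologicalComplex.singleObjXSelf (ComplexShape.up ℤ) 0 II).inv ≫
      cmp c') x' := by rw [← hg]; rfl
  rw [hb0, h2, val_add, hs, val_comp, add_comm]
  congr 1
  exact (hb _).symm

end

end Pool.Agent.K1H1.GA
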