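import Pool.Agent.K1H1.GA.ASide

/-!
# The tensor square of an object with cyclic dual has a cyclic dual
-/

open CategoryTheory Limits MonoidalCategory TensorProduct Representation HomologicalComplex

namespace Pool.Agent.K1H1.GA

universe w

/-- The sign. -/
noncomputable def sgn (p : ℤ) : ℂ := ((p.negOnePow : ℤˣ) : ℤ)

lemma sgn_succ (p : ℤ) : sgn (p + 1) = - sgn p := by
  simp [sgn, Int.negOnePow_succ]

lemma sgn_sq (p : ℤ) : sgn p * sgn p = 1 := by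
  rcases Int.even_or_odd p with h | h
  · simp [sgn, Int.negOnePow_even p h]
  · simp [sgn, Int.negOnePow_odd p h]

lemma negOnePow_smul {M : Type*} [AddCommGroup M] [Module ℂ M] (p : ℤ) (x : M) :
    (p.negOnePow • x : M) = sgn p • x := by
  rcases Int.even_or_odd p with h | h
  · simp [sgn, Int.negOnePow_even p h]
  · simp [sgn, Int.negOnePow_odd p h]

variable (K T : CochainComplex (Cat (std GAinf)) ℤ)

/-- The underlying complex of representations. -/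
noncomputable abbrev uu : CochainComplex (Rep.{0} ℂ GAinf) ℤ := (incl (std GAinf)).obj K

/-- Evaluation of an invariant bilinear form. -/
noncomputable def ev2 {M M' : Rep.{0} ℂ GAinf} (f : M ⊗ M' ⟶ 𝟙_ _) (x : M.V) (y : M'.V) : ℂ :=
  f.hom (x ⊗ₜ[ℂ] y : M.V ⊗[ℂ] M'.V)

lemma ev2_ext {M M' : Rep.{0} ℂ GAinf} {f g : M ⊗ M' ⟶ 𝟙_ _}
    (h : ∀ x y, ev2 f x y = ev2 g x y) : f = g := ext_tmul h

lemma ev2_add {M M' : Rep.{0} ℂ GAinf} (f g : M ⊗ M' ⟶ 𝟙_ _) (x : M.V) (y : M'.V) :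
    ev2 (f + g) x y = ev2 f x y + ev2 g x y := rfl

lemma ev2_zero {M M' : Rep.{0} ℂ GAinf} (x : M.V) (y : M'.V) :
    ev2 (0 : M ⊗ M' ⟶ 𝟙_ _) x y = 0 := rfl

lemma ev2_ofB {M M' : Rep.{0} ℂ GAinf} (b : Co M →ₗ[ℂ] Co M' →ₗ[ℂ] ℂ) (x : M.V) (y : M'.V) :
    ev2 (ofB b) x y = b (cmk M x) (cmk M' y) := rfl

lemma ev2_d (p p' q q' n n' : ℤ) (h : p + q = n)
    (hp : p + 1 = p') (hq : q + 1 = q') (hn : n + 1 = n')
    (F : (HomologicalComplex.tensorObj (uu K) (uu K)).X n' ⟶ 𝟙_ _)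
    (x : (K.X p).obj.V) (y : (K.X q).obj.V) :
    ev2 (ιTensorObj (uu K) (uu K) p q n h ≫
      (HomologicalComplex.tensorObj (uu K) (uu K)).d n n' ≫ F) x y =
      ev2 (ιTensorObj (uu K) (uu K) p' q n' (by omega) ≫ F) ((K.d p p').hom.hom x) y +
      sgn p * ev2 (ιTensorObj (uu K) (uu K) p q' n' (by omega) ≫ F) x
        ((K.d q q').hom.hom y) := by
  have h1 := ι_d (uu K) (uu K) p p' q q' n n' h hp hq hn
  have h2 : ιTensorObj (uu K) (uu K) p q n h ≫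
      (HomologicalComplex.tensorObj (uu K) (uu K)).d n n' ≫ F =
      ((uu K).d p p' ▷ (uu K).X q) ≫ ιTensorObj (uu K) (uu K) p' q n' (by omega) ≫ F +
      p.negOnePow • (((uu K).X p ◁ (uu K).d q q') ≫
        ιTensorObj (uu K) (uu K) p q' n' (by omega) ≫ F) := by
    rw [← Category.assoc, h1, Preadditive.add_comp, Category.assoc]
    congr 1
    rcases Int.even_or_odd p with hp | hp
    · simp only [Int.negOnePow_even p hp, one_smul, Category.assoc]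
    · simp only [Int.negOnePow_odd p hp, Units.neg_smul, one_smul, Category.assoc,
        Preadditive.neg_comp]
  rw [h2, ev2_add]
  congr 1
  rcases Int.even_or_odd p with hp | hp
  · simp only [Int.negOnePow_even p hp, one_smul, sgn]
    simp only [Units.val_one, Int.cast_one, one_mul]
    rfl
  · simp only [Int.negOnePow_odd p hp, Units.neg_smul, one_smul, sgn]
    simp only [Units.val_neg, Units.val_one, Int.cast_neg, Int.cast_one, neg_mul, one_mul]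
    rfl

/-- The underlying morphism to the unit. -/
noncomputable def hm {X : Cat (std GAinf)} (f : X ⟶ II) : X.obj ⟶ 𝟙_ (Rep.{0} ℂ GAinf) := f.hom

lemma ext_hm {X : Cat (std GAinf)} {f g : X ⟶ II} (h : hm f = hm g) : f = g := by
  ext1
  exact h

lemma exists_W_toB {X Y : Cat (std GAinf)} (f : X.obj ⊗ Y.obj ⟶ 𝟙_ _) :
    ∃ b : Co X.obj →ₗ[ℂ] Co Y.obj →ₗ[ℂ] ℂ, ∀ (x : X.obj.V) (y : Y.obj.V),
      b (cmk _ x) (cmk _ y) = ev2 f x y :=
  exists_toB (W_poly X.2) (W_poly Y.2) f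

/-- A family of bilinear forms defines a functional on the tensor product. -/
noncomputable def desc2 (ψ : ∀ p q, RR K p →ₗ[ℂ] RR K q →ₗ[ℂ] ℂ) (n : ℤ) :
    (HomologicalComplex.tensorObj (uu K) (uu K)).X n ⟶ 𝟙_ _ :=
  mapBifunctorDesc fun p q _ => ofB (M := (K.X p).obj) (M' := (K.X q).obj) (ψ p q)

lemma ι_desc2 (ψ : ∀ p q, RR K p →ₗ[ℂ] RR K q →ₗ[ℂ] ℂ) (p q n : ℤ) (h : p + q = n) :
    ιTensorObj (uu K) (uu K) p q n h ≫ desc2 K ψ n =
      ofB (M := (K.X p).obj) (M' := (K.X q).obj) (ψ p q) :=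
  ι_mapBifunctorDesc _ p q h

lemma ev2_d_desc2 (ψ : ∀ p q, RR K p →ₗ[ℂ] RR K q →ₗ[ℂ] ℂ) (p p' q q' n n' : ℤ) (h : p + q = n)
    (hp : p + 1 = p') (hq : q + 1 = q') (hn : n + 1 = n')
    (x : (K.X p).obj.V) (y : (K.X q).obj.V) :
    ev2 (ιTensorObj (uu K) (uu K) p q n h ≫
      (HomologicalComplex.tensorObj (uu K) (uu K)).d n n' ≫ desc2 K ψ n') x y =
      ψ p' q (dd K p p' (cmk _ x)) (cmk _ y) +
      sgn p * ψ p q' (cmk _ x) (dd K q q' (cmk _ y)) := by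
  rw [ev2_d K p p' q q' n n' h hp hq hn, ι_desc2, ι_desc2]
  rfl

variable [HasDerivedCategory.{w} (Cat (std GAinf))]

open DerivedCategory

theorem cyc_tensor (hT : IsTensor (std GAinf) K K T)
    (hneg : ∀ q : ℤ, 0 < q → Subsingleton (Q.obj K ⟶ Q.obj (sg q II)))
    (hcyc : Cyc (Q.obj K) (Q.obj (sg 0 II))) : Cyc (Q.obj T) (Q.obj (sg 0 II)) := by
  obtain ⟨α⟩ := hT
  obtain ⟨f0, hf0⟩ := hcyc
  obtain ⟨u0, rfl⟩ := exists_Q_map II 0 K f0
  obtain ⟨b0, hb0⟩ := exists_toR (cmp u0)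
  obtain ⟨Γ, hΓ1, hΓ2, hΓ3⟩ := lin (R := RR K) (dd K)
    (fun p q r hp hq x => by
      obtain ⟨x', rfl⟩ := cmk_surj _ x
      rw [dd_cmk, dd_cmk]
      have h1 : (K.d p q ≫ K.d q r).hom.hom x' = 0 := by
        rw [K.d_comp_d]
        rfl
      exact (congrArg (cmk _) h1).trans (map_zero _))
    (fun p q r hp hq h0 x hx => exact_pos K q (hneg q h0) p r hp hq x hx)
    (Pi.single 0 b0) (fun p hp => Pi.single_eq_of_ne hp _)
    (fun f hf => by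
      rw [Pi.single_eq_same]
      exact cyc_zero K u0 hf0 b0 hb0 f hf) sgn sgn_succ sgn_sq
  -- the generator
  let ψ0 : ∀ p q, RR K p →ₗ[ℂ] RR K q →ₗ[ℂ] ℂ := fun p q => (Γ p).smulRight (Γ q)
  have hψ0 : ∀ p q x y, ψ0 p q x y = Γ p x * Γ q y := fun p q x y => rfl
  have hd0 : (HomologicalComplex.tensorObj (uu K) (uu K)).d (-1) 0 ≫ desc2 K ψ0 0 = 0 := by
    apply mapBifunctor.hom_ext
    intro p q hpq
    rw [comp_zero]
    refine ev2_ext fun x y => ?_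
    rw [ev2_d_desc2 K ψ0 p (p + 1) q (q + 1) (-1) 0 hpq rfl rfl (by norm_num), hψ0, hψ0,
      hΓ2 p (p + 1) rfl, hΓ2 q (q + 1) rfl, ev2_zero]
    ring
  let g0 : T.X 0 ⟶ II := ObjectProperty.homMk (α.hom.f 0 ≫ desc2 K ψ0 0)
  have hg0 : T.d (-1) 0 ≫ g0 = 0 := by
    ext1
    show (uu T).d (-1) 0 ≫ α.hom.f 0 ≫ desc2 K ψ0 0 = 0
    rw [← α.hom.comm_assoc, hd0, comp_zero]
  let w0 : T ⟶ sg 0 II := mk g0 fun i hi => by
    obtain rfl : i = -1 := by omega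
    exact hg0
  refine ⟨Q.map w0, fun f => ?_⟩
  obtain ⟨v, rfl⟩ := exists_Q_map II 0 T f
  let B : ∀ p q (h : p + q = 0), (K.X p).obj ⊗ (K.X q).obj ⟶ 𝟙_ _ := fun p q h =>
    ιTensorObj (uu K) (uu K) p q 0 h ≫ α.inv.f 0 ≫ hm (cmp v)
  have hex : ∀ p q, ∃ b : RR K p →ₗ[ℂ] RR K q →ₗ[ℂ] ℂ, ∀ (h : p + q = 0) (x : (K.X p).obj.V)
      (y : (K.X q).obj.V), b (cmk _ x) (cmk _ y) = ev2 (B p q h) x y := by
    intro p q
    by_cases h : p + q = 0
    · obtain ⟨b, hb⟩ := exists_W_toB (X := K.X p) (Y := K.X q) (B p q h)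
      exact ⟨b, fun _ => hb⟩
    · exact ⟨0, fun h' => absurd h' h⟩
  choose φ hφ using hex
  have hcoc : (HomologicalComplex.tensorObj (uu K) (uu K)).d (-1) 0 ≫ α.inv.f 0 ≫ hm (cmp v)
      = 0 := by
    rw [← α.inv.comm_assoc]
    have h1 : (uu T).d (-1) 0 ≫ hm (cmp v) = 0 := by
      have h2 := d_cmp v (-1)
      exact congrArg hm h2
    rw [h1, comp_zero]
  obtain ⟨c, ψ, hψ⟩ := hΓ3 φ (by
    intro p p' q q' hp hq hpq x y
    obtain ⟨x, rfl⟩ := cmk_surj _ x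
    obtain ⟨y, rfl⟩ := cmk_surj _ y
    rw [dd_cmk, dd_cmk, hφ p' q (by omega), hφ p q' hpq]
    have h1 := ev2_d K p p' q q' (-1) 0 (by omega) hp hq (by norm_num)
      (α.inv.f 0 ≫ hm (cmp v)) x y
    rw [hcoc, comp_zero, ev2_zero] at h1
    exact h1.symm)
  let h' : T.X 1 ⟶ II := ObjectProperty.homMk (α.hom.f 1 ≫ desc2 K ψ 1)
  let sc : II ⟶ II := ObjectProperty.homMk (ofF (c • (exists_toF' (𝟙 (𝟙_ _))).choose))
  have hsc : ∀ (X : Cat (std GAinf)) (f : X ⟶ II) (x : X.obj.V), val (f ≫ sc) x = c * val f x := by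
    intro X f x
    have h1 := (exists_toF' (𝟙 (𝟙_ (Rep.{0} ℂ GAinf)))).choose_spec (f.hom.hom x)
    show c * ((exists_toF' (𝟙 (𝟙_ _))).choose (cmk _ (f.hom.hom x))) = c * val f x
    rw [h1]
    rfl
  refine ⟨Q.map ((HomologicalComplex.single _ (ComplexShape.up ℤ) 0).map sc), ?_⟩
  rw [← Functor.map_comp, ← sub_eq_zero, ← Functor.map_sub]
  refine zero_of_cmp II 0 T _ h' ?_
  rw [cmp_sub, cmp_single, show cmp w0 = g0 from cmp_mk _ _, sub_eq_iff_eq_add]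
  have key : α.inv.f 0 ≫ hm (cmp v) = (HomologicalComplex.tensorObj (uu K) (uu K)).d 0 1 ≫
      desc2 K ψ 1 + desc2 K ψ0 0 ≫ hm sc := by
    apply mapBifunctor.hom_ext
    intro p q hpq
    have hpq' : p + q = 0 := hpq
    rw [Preadditive.comp_add]
    refine ev2_ext fun x y => ?_
    rw [ev2_add, ev2_d_desc2 K ψ p (p + 1) q (q + 1) 0 1 hpq rfl rfl (by norm_num)]
    have h1 := hψ p (p + 1) q (q + 1) rfl rfl hpq' (cmk _ x) (cmk _ y)
    rw [hφ p q hpq'] at h1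
    refine Eq.trans h1 ?_
    have h2 : ev2 (ιTensorObj (uu K) (uu K) p q 0 hpq ≫ desc2 K ψ0 0 ≫ hm sc) x y =
        c * (Γ p (cmk _ x) * Γ q (cmk _ y)) := by
      rw [← Category.assoc, ι_desc2]
      exact hsc ⟨(K.X p).obj ⊗ (K.X q).obj, isSubquot_tensor _ (K.X p).2 (K.X q).2⟩
        (ObjectProperty.homMk (ofB (M := (K.X p).obj) (M' := (K.X q).obj) (ψ0 p q)))
        (x ⊗ₜ[ℂ] y : (K.X p).obj.V ⊗[ℂ] (K.X q).obj.V)
    rw [h2]
    ring
  apply ext_hm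
  show hm (cmp v) = (uu T).d 0 1 ≫ α.hom.f 1 ≫ desc2 K ψ 1 + (α.hom.f 0 ≫ desc2 K ψ0 0) ≫ hm sc
  rw [← α.hom.comm_assoc, Category.assoc, ← Preadditive.comp_add, ← key, ← Category.assoc]
  have h3 : α.hom.f 0 ≫ α.inv.f 0 = 𝟙 _ := by
    rw [← HomologicalComplex.comp_f, α.hom_inv_id, HomologicalComplex.id_f]
  rw [h3, Category.id_comp]

end Pool.Agent.K1H1.GA
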