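import Pool.Agent.K1H1.GA.ASide

/-!
# The infinite symmetric group: the standard representation
-/

open CategoryTheory Limits MonoidalCategory TensorProduct Representation HomologicalComplex

namespace Pool.Agent.K1H1.GA

universe w v u

section Gen

open DerivedCategory

variable {C : Type u} [Category.{v} C] [Abelian C] [HasDerivedCategory.{w} C]

lemma neg_subsingleton (X Y : C) (i : ℤ) (hi : i < 0) :
    Subsingleton (Q.obj (cx X) ⟶ (Q.obj (cx Y))⟦i⟧) := by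
  have h2 : (Q.obj (cx Y)).IsGE 0 := inferInstance
  have h3 : ((Q.obj (cx Y))⟦i⟧).IsGE (-i) := TStructure.t.isGE_shift _ 0 i (-i) (by omega)
  refine ⟨fun f g => ?_⟩
  rw [TStructure.t.zero f 0 (-i) (by omega), TStructure.t.zero g 0 (-i) (by omega)]

lemma exists_single_map {X Y : C} (f : Q.obj (cx X) ⟶ Q.obj (cx Y)) :
    ∃ g : X ⟶ Y, f = Q.map ((HomologicalComplex.single C (ComplexShape.up ℤ) 0).map g) := by
  obtain ⟨g, hg⟩ := (singleFunctor C 0).map_surjective (X := X) (Y := Y) f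
  exact ⟨g, hg.symm⟩

lemma single_map_inj {X Y : C} {g g' : X ⟶ Y}
    (h : Q.map ((HomologicalComplex.single C (ComplexShape.up ℤ) 0).map g) =
      Q.map ((HomologicalComplex.single C (ComplexShape.up ℤ) 0).map g')) : g = g' :=
  (singleFunctor C 0).map_injective h

lemma cyc_single_iff (X Y : C) : Cyc (Q.obj (cx X)) (Q.obj (cx Y)) ↔ Cyc X Y := by
  constructor
  · rintro ⟨f0, hf0⟩
    obtain ⟨g0, rfl⟩ := exists_single_map f0
    refine ⟨g0, fun g => ?_⟩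
    obtain ⟨c, hc⟩ := hf0 (Q.map ((HomologicalComplex.single C (ComplexShape.up ℤ) 0).map g))
    obtain ⟨c, rfl⟩ := exists_single_map c
    rw [← Functor.map_comp, ← Functor.map_comp] at hc
    exact ⟨c, single_map_inj hc⟩
  · rintro ⟨g0, hg0⟩
    refine ⟨Q.map ((HomologicalComplex.single C (ComplexShape.up ℤ) 0).map g0), fun f => ?_⟩
    obtain ⟨g, rfl⟩ := exists_single_map f
    obtain ⟨c, rfl⟩ := hg0 g
    refine ⟨Q.map ((HomologicalComplex.single C (ComplexShape.up ℤ) 0).map c), ?_⟩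
    rw [Functor.map_comp, Functor.map_comp]

lemma Cyc.of_iso {D : Type*} [Category* D] {X X' Y Y' : D} (h : Cyc X Y) (e : X ≅ X')
    (e' : Y ≅ Y') : Cyc X' Y' := by
  obtain ⟨f0, hf0⟩ := h
  refine ⟨e.inv ≫ f0 ≫ e'.hom, fun f => ?_⟩
  obtain ⟨c, hc⟩ := hf0 (e.hom ≫ f ≫ e'.inv)
  refine ⟨e'.inv ≫ c ≫ e'.hom, ?_⟩
  have h1 : f = e.inv ≫ (e.hom ≫ f ≫ e'.inv) ≫ e'.hom := by simp
  rw [h1, hc]
  simp

lemma Cyc.map {D D' : Type*} [Category* D] [Category* D'] (F : D ⥤ D') [F.Full] {X Y : D}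
    (h : Cyc X Y) : Cyc (F.obj X) (F.obj Y) := by
  obtain ⟨f0, hf0⟩ := h
  refine ⟨F.map f0, fun f => ?_⟩
  obtain ⟨g, rfl⟩ := F.map_surjective f
  obtain ⟨c, rfl⟩ := hf0 g
  exact ⟨F.map c, F.map_comp _ _⟩

lemma Cyc.of_map {D D' : Type*} [Category* D] [Category* D'] (F : D ⥤ D') [F.Full] [F.Faithful]
    {X Y : D} (h : Cyc (F.obj X) (F.obj Y)) : Cyc X Y := by
  obtain ⟨f0, hf0⟩ := h
  obtain ⟨g0, rfl⟩ := F.map_surjective f0
  refine ⟨g0, fun f => ?_⟩
  obtain ⟨c, hc⟩ := hf0 (F.map f)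
  obtain ⟨c, rfl⟩ := F.map_surjective c
  exact ⟨c, F.map_injective (by rw [hc, F.map_comp])⟩

end Gen

/-! ### The symmetric group -/

/-- A transposition. -/
noncomputable def sw (i j : ℕ) : VV ≃ₗ[ℂ] VV := Finsupp.domLCongr (Equiv.swap i j)

lemma sw_e (i j k : ℕ) : sw i j (e k) = e (Equiv.swap i j k) := Finsupp.domLCongr_single _ _ _

lemma sw_apply (i j : ℕ) (v : VV) (k : ℕ) : sw i j v k = v (Equiv.swap i j k) := by
  simp [sw]

lemma sw_mem (i j : ℕ) : sw i j ∈ SSinf := by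
  refine ⟨⟨i + j + 1, fun k hk => ?_, fun v k hk => ?_⟩, Equiv.swap i j, sw_e i j⟩
  · rw [sw_e, Equiv.swap_apply_of_ne_of_ne (by omega) (by omega)]
  · rw [sw_apply, Equiv.swap_apply_of_ne_of_ne (by omega) (by omega)]

/-- The standard representation of the infinite symmetric group. -/
noncomputable def vS : Cat (std SSinf) := ⟨std SSinf, isSubquot_self _⟩

/-- The trivial representation of the infinite symmetric group. -/
noncomputable abbrev IS : Cat (std SSinf) := unitC (std SSinf)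

/-- The coordinate sum. -/
noncomputable def sumL : VV →ₗ[ℂ] ℂ := Finsupp.linearCombination ℂ fun _ => (1 : ℂ)

lemma sumL_e (i : ℕ) : sumL (e i) = 1 := by simp [sumL, e]

lemma VV_ext {N : Type*} [AddCommGroup N] [Module ℂ N] {f g : VV →ₗ[ℂ] N}
    (h : ∀ i, f (e i) = g (e i)) : f = g := by
  apply Finsupp.lhom_ext'
  intro i
  ext
  exact h i

/-- The coordinate sum as a morphism. -/
noncomputable def sumH : std SSinf ⟶ 𝟙_ _ :=
  Rep.ofHom ⟨(sumL : VV →ₗ[ℂ] ℂ), fun g => by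
    obtain ⟨-, σ, hσ⟩ := g.2
    refine VV_ext fun i => ?_
    show sumL ((g : VV ≃ₗ[ℂ] VV) (e i)) = sumL (e i)
    rw [hσ, sumL_e, sumL_e]⟩

lemma cyc_vS : Cyc vS IS := by
  refine ⟨ObjectProperty.homMk sumH, fun f => ?_⟩
  let F : VV →ₗ[ℂ] ℂ := f.hom.hom.toLinearMap
  have hF : ∀ i, F (e i) = F (e 0) := by
    intro i
    have h1 := Rep.hom_comm_apply f.hom (⟨sw 0 i, sw_mem 0 i⟩ : SSinf) (e 0)
    have h2 : F (sw 0 i (e 0)) = F (e 0) := h1
    rwa [sw_e, Equiv.swap_apply_left] at h2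
  let A : ℂ →ₗ[ℂ] ℂ := F (e 0) • LinearMap.id
  let a : (𝟙_ (Rep.{0} ℂ SSinf)) ⟶ 𝟙_ _ := Rep.ofHom ⟨A, fun g => rfl⟩
  refine ⟨ObjectProperty.homMk a, ?_⟩
  ext1
  ext1
  apply Representation.IntertwiningMap.toLinearMap_injective
  show F = A ∘ₗ sumL
  refine VV_ext fun i => ?_
  rw [hF, LinearMap.comp_apply, sumL_e]
  simp [A]

end Pool.Agent.K1H1.GA
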