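import Pool.Agent.K1H1.GA.BSide

/-!
# The tensor square of the standard representation of the infinite symmetric group
-/

open CategoryTheory Limits MonoidalCategory TensorProduct Representation HomologicalComplex

namespace Pool.Agent.K1H1.GA

universe w

/-- The form with all values one on the basis. -/
noncomputable def b1 : VV →ₗ[ℂ] VV →ₗ[ℂ] ℂ := sumL.smulRight sumL

/-- The form with value one on equal basis vectors and zero on distinct ones. -/
noncomputable def b2 : VV →ₗ[ℂ] VV →ₗ[ℂ] ℂ :=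
  Finsupp.lsum ℂ fun i => LinearMap.toSpanSingleton ℂ (VV →ₗ[ℂ] ℂ) (Finsupp.lapply i)

lemma b1_e (i j : ℕ) : b1 (e i) (e j) = 1 := by
  simp [b1, sumL_e]

lemma b2_e (i j : ℕ) : b2 (e i) (e j) = if i = j then 1 else 0 := by
  simp only [b2, e, Finsupp.lsum_single, LinearMap.toSpanSingleton_apply, one_smul,
    Finsupp.lapply_apply, Finsupp.single_apply]
  exact if_congr eq_comm rfl rfl

lemma bil_ext {f g : VV →ₗ[ℂ] VV →ₗ[ℂ] ℂ} (h : ∀ i j, f (e i) (e j) = g (e i) (e j)) : f = g :=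
  VV_ext fun i => VV_ext fun j => h i j

/-- An invariant form as a morphism. -/
noncomputable def formH (b : VV →ₗ[ℂ] VV →ₗ[ℂ] ℂ)
    (hb : ∀ (σ : Equiv.Perm ℕ) i j, b (e (σ i)) (e (σ j)) = b (e i) (e j)) :
    std SSinf ⊗ std SSinf ⟶ 𝟙_ _ :=
  Rep.ofHom ⟨(TensorProduct.lift b : VV ⊗[ℂ] VV →ₗ[ℂ] ℂ), fun g => by
    obtain ⟨-, σ, hσ⟩ := g.2
    refine TensorProduct.ext' fun x y => ?_
    show b ((g : VV ≃ₗ[ℂ] VV) x) ((g : VV ≃ₗ[ℂ] VV) y) = b x y
    have h1 : b.compl₁₂ ((g : VV ≃ₗ[ℂ] VV) : VV →ₗ[ℂ] VV) ((g : VV ≃ₗ[ℂ] VV) : VV →ₗ[ℂ] VV) =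
        b := by
      refine bil_ext fun i j => ?_
      rw [LinearMap.compl₁₂_apply]
      show b ((g : VV ≃ₗ[ℂ] VV) (e i)) ((g : VV ≃ₗ[ℂ] VV) (e j)) = b (e i) (e j)
      rw [hσ, hσ, hb]
    exact LinearMap.congr_fun (LinearMap.congr_fun h1 x) y⟩

/-- The underlying complex of representations of the standard representation. -/
noncomputable abbrev AA : CochainComplex (Rep.{0} ℂ SSinf) ℤ := (incl (std SSinf)).obj (cx vS)

lemma AA_isZero (p : ℤ) (hp : p ≠ 0) : IsZero (AA.X p) :=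
  isZero_incl (std SSinf) (HomologicalComplex.isZero_single_obj_X (ComplexShape.up ℤ) 0 vS p hp)

/-- The term in degree zero. -/
noncomputable def A0 : AA.X 0 ≅ std SSinf :=
  (IsSubquot (std SSinf)).ι.mapIso (HomologicalComplex.singleObjXSelf (ComplexShape.up ℤ) 0 vS)

/-- The map from the terms to the standard representation. -/
noncomputable def β (p : ℤ) : AA.X p ⟶ std SSinf :=
  if h : p = 0 then eqToHom (by rw [h]) ≫ A0.hom else 0

lemma β_zero : β 0 = A0.hom := by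
  rw [β, dif_pos rfl, eqToHom_refl, Category.id_comp]

/-- The functional on the tensor square defined by an invariant form. -/
noncomputable def FF (h : std SSinf ⊗ std SSinf ⟶ 𝟙_ (Rep.{0} ℂ SSinf)) :
    (HomologicalComplex.tensorObj AA AA).X 0 ⟶ 𝟙_ (Rep.{0} ℂ SSinf) :=
  mapBifunctorDesc fun p q _ => (β p ⊗ₘ β q) ≫ h

/-- Elements of the tensor square. -/
noncomputable def zz (i j : ℕ) : ((HomologicalComplex.tensorObj AA AA).X 0).V :=
  (ιTensorObj AA AA 0 0 0 rfl).hom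
    ((A0.inv.hom (e i : (std SSinf).V)) ⊗ₜ[ℂ] (A0.inv.hom (e j : (std SSinf).V)) :
      (AA.X 0).V ⊗[ℂ] (AA.X 0).V)

lemma A0_inv_hom (x : (std SSinf).V) : A0.hom.hom (A0.inv.hom x) = x := by
  have h : (A0.inv ≫ A0.hom).hom x = x := by
    rw [A0.inv_hom_id]
    rfl
  exact h

lemma FF_zz (b : VV →ₗ[ℂ] VV →ₗ[ℂ] ℂ)
    (hb : ∀ (σ : Equiv.Perm ℕ) i j, b (e (σ i)) (e (σ j)) = b (e i) (e j)) (i j : ℕ) :
    (FF (formH b hb)).hom (zz i j) = b (e i) (e j) := by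
  have h1 : ιTensorObj AA AA 0 0 0 rfl ≫ FF (formH b hb) = (A0.hom ⊗ₘ A0.hom) ≫ formH b hb := by
    have := ι_mapBifunctorDesc (K₁ := AA) (K₂ := AA) (F := curriedTensor (Rep.{0} ℂ SSinf))
      (c := ComplexShape.up ℤ) (j := (0 : ℤ)) (A := 𝟙_ (Rep.{0} ℂ SSinf))
      (fun p q _ => (β p ⊗ₘ β q) ≫ formH b hb) 0 0 rfl
    rw [β_zero] at this
    exact this
  have h2 : (FF (formH b hb)).hom (zz i j) = (ιTensorObj AA AA 0 0 0 rfl ≫
      FF (formH b hb)).hom ((A0.inv.hom (e i : (std SSinf).V)) ⊗ₜ[ℂ]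
        (A0.inv.hom (e j : (std SSinf).V)) : (AA.X 0).V ⊗[ℂ] (AA.X 0).V) := rfl
  rw [h2, h1]
  show b (A0.hom.hom (A0.inv.hom (e i : (std SSinf).V)))
    (A0.hom.hom (A0.inv.hom (e j : (std SSinf).V))) = b (e i) (e j)
  rw [A0_inv_hom, A0_inv_hom]

lemma b1_inv (σ : Equiv.Perm ℕ) (i j : ℕ) : b1 (e (σ i)) (e (σ j)) = b1 (e i) (e j) := by
  rw [b1_e, b1_e]

lemma b2_inv (σ : Equiv.Perm ℕ) (i j : ℕ) : b2 (e (σ i)) (e (σ j)) = b2 (e i) (e j) := by
  rw [b2_e, b2_e]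
  simp

/-- The functionals on the tensor square do not form a cyclic module. -/
lemma not_cyc_X : ¬ Cyc ((HomologicalComplex.tensorObj AA AA).X 0) (𝟙_ (Rep.{0} ℂ SSinf)) := by
  rintro ⟨f0, hf0⟩
  obtain ⟨c1, h1⟩ := hf0 (FF (formH b1 b1_inv))
  obtain ⟨c2, h2⟩ := hf0 (FF (formH b2 b2_inv))
  let F0 : ((HomologicalComplex.tensorObj AA AA).X 0).V →ₗ[ℂ] ℂ := f0.hom.toLinearMap
  let C1 : ℂ →ₗ[ℂ] ℂ := c1.hom.toLinearMap
  let C2 : ℂ →ₗ[ℂ] ℂ := c2.hom.toLinearMap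
  have e1 : ∀ i j, b1 (e i) (e j) = C1 (F0 (zz i j)) := fun i j => by
    rw [← FF_zz b1 b1_inv, h1]
    rfl
  have e2 : ∀ i j, b2 (e i) (e j) = C2 (F0 (zz i j)) := fun i j => by
    rw [← FF_zz b2 b2_inv, h2]
    rfl
  have C2lin : ∀ x : ℂ, C2 x = x * C2 1 := fun x => by
    have h := C2.map_smul x 1
    rwa [smul_eq_mul, mul_one, smul_eq_mul] at h
  have g1 := e1 0 1
  have g2 := e2 0 0
  have g3 := e2 0 1
  rw [b1_e] at g1
  rw [b2_e, if_pos rfl, C2lin] at g2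
  rw [b2_e, if_neg (by norm_num), C2lin] at g3
  rcases mul_eq_zero.mp g3.symm with h | h
  · rw [h, map_zero] at g1
    exact one_ne_zero g1
  · rw [h, mul_zero] at g2
    exact one_ne_zero g2

variable [HasDerivedCategory.{w} (Cat (std SSinf))]

open DerivedCategory

theorem not_cyc (T : CochainComplex (Cat (std SSinf)) ℤ)
    (hT : IsTensor (std SSinf) (cx vS) (cx vS) T) : ¬ Cyc (Q.obj T) (Q.obj (cx IS)) := by
  intro h
  obtain ⟨α⟩ := hT
  have hz : ∀ n : ℤ, n ≠ 0 → IsZero (T.X n) := by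
    intro n hn
    apply isZero_of_incl
    have h1 : IsZero ((HomologicalComplex.tensorObj AA AA).X n) := by
      apply tensor_isZero
      intro p q hpq
      by_cases hp : p = 0
      · exact Or.inr (AA_isZero q (by omega))
      · exact Or.inl (AA_isZero p hp)
    exact h1.of_iso ((HomologicalComplex.eval _ _ n).mapIso α)
  have hge : T.IsStrictlyGE 0 := by
    rw [CochainComplex.isStrictlyGE_iff]
    exact fun i hi => hz i (by omega)
  have hle : T.IsStrictlyLE 0 := by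
    rw [CochainComplex.isStrictlyLE_iff]
    exact fun i hi => hz i (by omega)
  obtain ⟨Y, ⟨γ⟩⟩ := CochainComplex.exists_iso_single T 0
  have h1 : Cyc Y IS := (cyc_single_iff Y IS).mp (h.of_iso (Q.mapIso γ) (Iso.refl _))
  have e0 : T.X 0 ≅ (sg 0 Y).X 0 := (HomologicalComplex.eval _ _ 0).mapIso γ
  have e1 : Y ≅ T.X 0 :=
    (e0 ≪≫ (HomologicalComplex.singleObjXSelf (ComplexShape.up ℤ) 0 Y)).symm
  have h2 : Cyc (T.X 0) IS := h1.of_iso e1 (Iso.refl _)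
  have h3 : Cyc (T.X 0).obj (𝟙_ (Rep.{0} ℂ SSinf)) := h2.map (IsSubquot (std SSinf)).ι
  exact not_cyc_X (h3.of_iso ((HomologicalComplex.eval _ _ 0).mapIso α) (Iso.refl _))

end Pool.Agent.K1H1.GA
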