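import Pool.Agent.K1H1.GA.Db

/-!
# The two representation categories and their bounded derived categories
-/

open CategoryTheory Limits MonoidalCategory

namespace Pool.Agent.K1H1.GA

universe w w'

/-- The group `GA(∞)`, as a type. -/
def GAgrp : Type := GAinf

noncomputable instance GAgrp.group : Group GAgrp := Subgroup.toGroup GAinf

/-- The representation of `GA(∞)` on `C^∞`. -/
noncomputable def VGA : Rep.{0} ℂ GAgrp := std GAinf

/-- The infinite symmetric group, as a type. -/
def SSgrp : Type := SSinf

noncomputable instance SSgrp.group : Group SSgrp := Subgroup.toGroup SSinf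

/-- The representation of the infinite symmetric group on `C^∞`. -/
noncomputable def VSS : Rep.{0} ℂ SSgrp := std SSinf

section Gen

variable {G : Type} [Group G] (V : Rep.{0} ℂ G)

/-- The category of all representations which are subquotients of finite direct sums of tensor
powers `V^{⊗ n}`, a full subcategory of the category of all representations. -/
def RepPol : Type 1 := Cat V

noncomputable instance RepPol.category : Category.{0} (RepPol V) :=
  ObjectProperty.FullSubcategory.category (IsSubquot V)

noncomputable instance RepPol.abelian : Abelian (RepPol V) :=
  show Abelian (Cat V) from inferInstance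

/-- Bounded cochain complexes of objects of `RepPol V`. -/
def BC : Type 1 := {K : CochainComplex (RepPol V) ℤ // IsBdd K}

variable {V} in
/-- The complex of representations underlying a bounded complex. -/
noncomputable def BC.und (K : BC V) : CochainComplex (Rep.{0} ℂ G) ℤ := (incl V).obj K.1

variable {V} in
/-- The bounded complex `T` is (isomorphic to) the total tensor product of `K` and `L`. -/
def BC.IsTensor (K L T : BC V) : Prop :=
  Nonempty (T.und ≅ HomologicalComplex.tensorObj K.und L.und)

/-- The tensor unit: the trivial one-dimensional representation, placed in degree zero. -/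
noncomputable def BC.unit : BC V := ⟨cx (unitC V), isBdd_cx _⟩

/-- The bounded derived category of `RepPol V`. -/
def Db [HasDerivedCategory.{w} (RepPol V)] : Type 1 := DerivedCategory.Bounded (RepPol V)

noncomputable instance Db.category [HasDerivedCategory.{w} (RepPol V)] : Category.{w} (Db V) :=
  show Category.{w} (DerivedCategory.Bounded (RepPol V)) from inferInstance

noncomputable instance Db.hasShift [HasDerivedCategory.{w} (RepPol V)] : HasShift (Db V) ℤ :=
  show HasShift (DerivedCategory.Bounded (RepPol V)) ℤ from inferInstance

variable {V} in
/-- The object of the bounded derived category defined by a bounded complex. -/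
noncomputable def BC.toDb [HasDerivedCategory.{w} (RepPol V)] (K : BC V) : Db V :=
  Pool.Agent.K1H1.GA.toDb K.1 K.2

end Gen

/-- A functor between the bounded derived categories commutes, up to isomorphism of objects,
with shifts, tensor units and tensor products. -/
structure TensorCompatible {G G' : Type} [Group G] [Group G'] {V : Rep.{0} ℂ G}
    {V' : Rep.{0} ℂ G'} [HasDerivedCategory.{w} (RepPol V)] [HasDerivedCategory.{w'} (RepPol V')]
    (F : Db V ⥤ Db V') : Prop where
  shift : ∀ (X : Db V) (n : ℤ), Nonempty (F.obj (X⟦n⟧) ≅ (F.obj X)⟦n⟧)
  unit : Nonempty (F.obj (BC.unit V).toDb ≅ (BC.unit V').toDb)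
  tensor : ∀ (K L T : BC V) (K' L' T' : BC V'), BC.IsTensor K L T → BC.IsTensor K' L' T' →
    Nonempty (F.obj K.toDb ≅ K'.toDb) → Nonempty (F.obj L.toDb ≅ L'.toDb) →
    Nonempty (F.obj T.toDb ≅ T'.toDb)

end Pool.Agent.K1H1.GA
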