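import Pool.Agent.K1H1.GA.Defs

/-!
# Closure properties of the class of subquotients of sums of tensor powers
-/

open CategoryTheory Limits MonoidalCategory ZeroObject

namespace Pool.Agent.K1H1.GA

variable {G : Type} [Group G] (V : Rep.{0} ℂ G)

instance isSubquot_sub : (IsSubquot V).IsClosedUnderSubobjects where
  prop_of_mono {X Y} f _ hY := by
    obtain ⟨J, hJ, n, N, i, p, hi, hp⟩ := hY
    exact ⟨J, hJ, n, pullback p f, pullback.fst p f ≫ i, pullback.snd p f, mono_comp _ _,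
      inferInstance⟩

instance isSubquot_quot : (IsSubquot V).IsClosedUnderQuotients where
  prop_of_epi {X Y} f _ hX := by
    obtain ⟨J, hJ, n, N, i, p, hi, hp⟩ := hX
    exact ⟨J, hJ, n, N, i, p ≫ f, hi, epi_comp _ _⟩

lemma isSubquot_sum {J : Type} [Finite J] (n : J → ℕ) :
    IsSubquot V (⨁ fun j => tpow V (n j)) :=
  ⟨J, inferInstance, n, _, 𝟙 _, 𝟙 _, inferInstance, inferInstance⟩

lemma isSubquot_biprod {J : Type} [Finite J] (M : J → Rep.{0} ℂ G)
    (hM : ∀ j, IsSubquot V (M j)) : IsSubquot V (⨁ M) := by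
  classical
  choose I hI n N i p hi hp using hM
  let e : (⨁ fun j => ⨁ fun a : I j => tpow V (n j a)) ≅
      ⨁ fun x : (Σ j, I j) => tpow V (n x.1 x.2) :=
    biproductBiproductIso I (fun j a => tpow V (n j a))
  refine ⟨Σ j, I j, inferInstance, fun x => n x.1 x.2, ⨁ N, biproduct.map i ≫ e.hom,
    biproduct.map p, mono_comp _ _, inferInstance⟩


lemma isSubquot_zero : IsSubquot V 0 :=
  (IsSubquot V).prop_of_mono (0 : (0 : Rep.{0} ℂ G) ⟶ _) (isSubquot_sum V (J := PEmpty) nofun)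

instance : (IsSubquot V).ContainsZero where
  exists_zero := ⟨0, isZero_zero _, isSubquot_zero V⟩

instance : (IsSubquot V).IsClosedUnderFiniteProducts where
  isClosedUnderLimitsOfShape J _ :=
    { limitsOfShape_le := by
        rintro X ⟨p⟩
        have hm : Mono (biproduct.lift (fun j : J => p.π.app ⟨j⟩)) := by
          refine ⟨fun g h hgh => p.isLimit.hom_ext fun ⟨j⟩ => ?_⟩
          have := congrArg (fun q => q ≫ biproduct.π _ j) hgh
          simpa using this
        exact (IsSubquot V).prop_of_mono (biproduct.lift (fun j : J => p.π.app ⟨j⟩))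
          (isSubquot_biprod V _ fun j => p.prop_diag_obj ⟨j⟩) }

/-- `V^{⊗ m} ⊗ V^{⊗ n} ≅ V^{⊗ (m + n)}`. -/
noncomputable def tpowAdd (m n : ℕ) : tpow V m ⊗ tpow V n ≅ tpow V (m + n) :=
  match m with
  | 0 => λ_ _ ≪≫ eqToIso (by rw [zero_add])
  | m + 1 => α_ _ _ _ ≪≫ whiskerLeftIso V (tpowAdd m n) ≪≫
      eqToIso (by rw [show m + 1 + n = (m + n) + 1 by ring]; rfl)

lemma mono_whiskerRight {M N : Rep.{0} ℂ G} (f : M ⟶ N) [Mono f] (P : Rep.{0} ℂ G) :
    Mono (f ▷ P) := by
  rw [Rep.mono_iff_injective] at *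
  exact Module.Flat.rTensor_preserves_injective_linearMap (M := P.V) f.hom.toLinearMap ‹_›

lemma epi_whiskerRight {M N : Rep.{0} ℂ G} (f : M ⟶ N) [Epi f] (P : Rep.{0} ℂ G) :
    Epi (f ▷ P) := by
  rw [Rep.epi_iff_surjective] at *
  exact LinearMap.rTensor_surjective (P.V) (g := f.hom.toLinearMap) ‹_›

lemma mono_whiskerLeft {M N : Rep.{0} ℂ G} (f : M ⟶ N) [Mono f] (P : Rep.{0} ℂ G) :
    Mono (P ◁ f) := by
  rw [Rep.mono_iff_injective] at *
  exact Module.Flat.lTensor_preserves_injective_linearMap (M := P.V) f.hom.toLinearMap ‹_›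

lemma epi_whiskerLeft {M N : Rep.{0} ℂ G} (f : M ⟶ N) [Epi f] (P : Rep.{0} ℂ G) :
    Epi (P ◁ f) := by
  rw [Rep.epi_iff_surjective] at *
  exact LinearMap.lTensor_surjective (P.V) (g := f.hom.toLinearMap) ‹_›

lemma isSubquot_tpow (n : ℕ) : IsSubquot V (tpow V n) :=
  (IsSubquot V).prop_of_mono (biproduct.ι (fun _ : Unit => tpow V n) ())
    (isSubquot_sum V (fun _ : Unit => n))

lemma isSubquot_tensor {M M' : Rep.{0} ℂ G} (h : IsSubquot V M) (h' : IsSubquot V M') :
    IsSubquot V (M ⊗ M') := by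
  have key1 : ∀ (m : ℕ) (M' : Rep.{0} ℂ G), IsSubquot V M' → IsSubquot V (tpow V m ⊗ M') := by
    rintro m M' ⟨J, hJ, n, N, i, p, hi, hp⟩
    have h1 : IsSubquot V (tpow V m ⊗ ⨁ fun j => tpow V (n j)) := by
      refine (IsSubquot V).prop_of_iso (leftDistributor _ _).symm
        (isSubquot_biprod V _ fun j => ?_)
      exact (IsSubquot V).prop_of_iso (tpowAdd V m (n j)).symm (isSubquot_tpow V _)
    have h2 := mono_whiskerLeft i (tpow V m)
    have h3 := epi_whiskerLeft p (tpow V m)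
    exact (IsSubquot V).prop_of_epi (tpow V m ◁ p) ((IsSubquot V).prop_of_mono (tpow V m ◁ i) h1)
  obtain ⟨J, hJ, n, N, i, p, hi, hp⟩ := h
  have h1 : IsSubquot V ((⨁ fun j => tpow V (n j)) ⊗ M') :=
    (IsSubquot V).prop_of_iso (rightDistributor _ _).symm
      (isSubquot_biprod V _ fun j => key1 _ _ h')
  have h2 := mono_whiskerRight i M'
  have h3 := epi_whiskerRight p M'
  exact (IsSubquot V).prop_of_epi (p ▷ M') ((IsSubquot V).prop_of_mono (i ▷ M') h1)

lemma isSubquot_unit : IsSubquot V (𝟙_ _) := isSubquot_tpow V 0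

lemma isSubquot_self : IsSubquot V V :=
  (IsSubquot V).prop_of_iso (ρ_ V) (isSubquot_tpow V 1)

/-- The category of subquotients of finite direct sums of the `V^{⊗ n}`. -/
abbrev Cat : Type 1 := (IsSubquot V).FullSubcategory


end Pool.Agent.K1H1.GA
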