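import Pool.Agent.K1H1.GA.Db

/-!
# Tensor products of bounded complexes
-/

open CategoryTheory Limits MonoidalCategory HomologicalComplex

namespace Pool.Agent.K1H1.GA

variable {G : Type} [Group G] (V : Rep.{0} ℂ G)

lemma isZero_tensor_left {X : Rep.{0} ℂ G} (hX : IsZero X) (Y : Rep.{0} ℂ G) :
    IsZero (X ⊗ Y) := by
  rw [IsZero.iff_id_eq_zero] at *
  rw [← MonoidalCategory.id_tensorHom_id, hX]
  simp

lemma isZero_tensor_right {Y : Rep.{0} ℂ G} (hY : IsZero Y) (X : Rep.{0} ℂ G) :
    IsZero (X ⊗ Y) := by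
  rw [IsZero.iff_id_eq_zero] at *
  rw [← MonoidalCategory.id_tensorHom_id, hY]
  simp

lemma tensor_isSubquot (K L : CochainComplex (Rep.{0} ℂ G) ℤ)
    (hK : ∀ n, IsSubquot V (K.X n)) (hL : ∀ n, IsSubquot V (L.X n)) (a b : ℤ)
    (hKa : ∀ p, p < a → IsZero (K.X p)) (hKb : ∀ p, b < p → IsZero (K.X p)) (n : ℤ) :
    IsSubquot V ((HomologicalComplex.tensorObj K L).X n) := by
  classical
  let J : Type := (Finset.Icc a b : Set ℤ)
  let f : (⨁ fun p : J => K.X p.1 ⊗ L.X (n - p.1)) ⟶ (HomologicalComplex.tensorObj K L).X n :=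
    biproduct.desc fun p : J => ιTensorObj K L p.1 (n - p.1) n (by ring)
  have hf : Epi f := by
    refine ⟨fun {Z} g h hgh => ?_⟩
    apply mapBifunctor.hom_ext
    intro i₁ i₂ hi
    by_cases h1 : a ≤ i₁ ∧ i₁ ≤ b
    · have hi' : i₁ + i₂ = n := hi
      obtain rfl : i₂ = n - i₁ := by omega
      let p : J := ⟨i₁, by simpa using h1⟩
      have h2 := congrArg (fun q => biproduct.ι (fun p : J => K.X p.1 ⊗ L.X (n - p.1)) p ≫ q) hgh
      simp only [f, biproduct.ι_desc_assoc] at h2
      exact h2
    · have h2 : IsZero (K.X i₁) := by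
        rw [not_and_or] at h1
        rcases h1 with h1 | h1
        · exact hKa _ (by omega)
        · exact hKb _ (by omega)
      exact (isZero_tensor_left h2 _).eq_of_src _ _
  exact (IsSubquot V).prop_of_epi f
    (isSubquot_biprod V _ fun p => isSubquot_tensor V (hK _) (hL _))

lemma tensor_isZero (K L : CochainComplex (Rep.{0} ℂ G) ℤ) (n : ℤ)
    (h : ∀ p q, p + q = n → IsZero (K.X p) ∨ IsZero (L.X q)) :
    IsZero ((HomologicalComplex.tensorObj K L).X n) := by
  rw [IsZero.iff_id_eq_zero]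
  apply mapBifunctor.hom_ext
  intro i₁ i₂ hi
  rcases h i₁ i₂ hi with h1 | h1
  · exact (isZero_tensor_left h1 _).eq_of_src _ _
  · exact (isZero_tensor_right h1 _).eq_of_src _ _

lemma isZero_incl {K : CochainComplex (Cat V) ℤ} {n : ℤ} (h : IsZero (K.X n)) :
    IsZero (((incl V).obj K).X n) :=
  (IsSubquot V).ι.map_isZero h

lemma isZero_of_incl {X : Cat V} (h : IsZero X.obj) : IsZero X := by
  rw [IsZero.iff_id_eq_zero] at *
  ext1
  exact h

/-- The tensor product of bounded complexes exists in `Cat V`. -/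
theorem exists_tensor (K L : CochainComplex (Cat V) ℤ) (hK : IsBdd K) (hL : IsBdd L) :
    ∃ T : CochainComplex (Cat V) ℤ, IsBdd T ∧ IsTensor V K L T := by
  obtain ⟨a, b, ha, hb⟩ := hK
  obtain ⟨a', b', ha', hb'⟩ := hL
  let T0 := HomologicalComplex.tensorObj ((incl V).obj K) ((incl V).obj L)
  have hKa : ∀ p, p < a → IsZero (((incl V).obj K).X p) := fun p hp =>
    isZero_incl V (CochainComplex.isZero_of_isStrictlyGE K a p hp)
  have hKb : ∀ p, b < p → IsZero (((incl V).obj K).X p) := fun p hp =>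
    isZero_incl V (CochainComplex.isZero_of_isStrictlyLE K b p hp)
  have hLa : ∀ p, p < a' → IsZero (((incl V).obj L).X p) := fun p hp =>
    isZero_incl V (CochainComplex.isZero_of_isStrictlyGE L a' p hp)
  have hLb : ∀ p, b' < p → IsZero (((incl V).obj L).X p) := fun p hp =>
    isZero_incl V (CochainComplex.isZero_of_isStrictlyLE L b' p hp)
  have hT : ∀ n, IsSubquot V (T0.X n) := fun n =>
    tensor_isSubquot V ((incl V).obj K) ((incl V).obj L) (fun n => (K.X n).2)
      (fun n => (L.X n).2) a b hKa hKb n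
  let T : CochainComplex (Cat V) ℤ :=
    { X := fun n => ⟨T0.X n, hT n⟩
      d := fun i j => ObjectProperty.homMk (T0.d i j)
      shape := fun i j hij => by
        ext1
        exact T0.shape i j hij
      d_comp_d' := fun i j k _ _ => by
        ext1
        exact T0.d_comp_d i j k }
  refine ⟨T, ⟨a + a', b + b', ?_, ?_⟩, ⟨?_⟩⟩
  · rw [CochainComplex.isStrictlyGE_iff]
    intro i hi
    apply isZero_of_incl
    apply tensor_isZero
    intro p q hpq
    by_cases hp : p < a
    · exact Or.inl (hKa p hp)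
    · exact Or.inr (hLa q (by omega))
  · rw [CochainComplex.isStrictlyLE_iff]
    intro i hi
    apply isZero_of_incl
    apply tensor_isZero
    intro p q hpq
    by_cases hp : b < p
    · exact Or.inl (hKb p hp)
    · exact Or.inr (hLb q (by omega))
  · exact HomologicalComplex.Hom.isoOfComponents (fun n => Iso.refl _) (fun i j _ =>
      (Category.id_comp (T0.d i j)).trans (Category.comp_id (T0.d i j)).symm)

end Pool.Agent.K1H1.GA
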