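import Pool.Agent.K1H1.GA.WtPoly
import Pool.Agent.K1H1.GA.Tens

/-!
# Coinvariants and invariant bilinear forms
-/

open CategoryTheory Limits MonoidalCategory TensorProduct Representation HomologicalComplex

namespace Pool.Agent.K1H1.GA

section Gen

variable {G : Type} [Group G]

/-- Coinvariants. -/
abbrev Co (M : Rep.{0} ℂ G) : Type := M.ρ.Coinvariants

/-- The projection to coinvariants. -/
noncomputable def cmk (M : Rep.{0} ℂ G) : M.V →ₗ[ℂ] Co M := Coinvariants.mk M.ρ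

lemma cmk_surj (M : Rep.{0} ℂ G) : Function.Surjective (cmk M) := Coinvariants.mk_surjective _

/-- The map induced on coinvariants. -/
noncomputable def cmap {M M' : Rep.{0} ℂ G} (f : M ⟶ M') : Co M →ₗ[ℂ] Co M' :=
  Coinvariants.map _ _ f.hom

lemma cmap_cmk {M M' : Rep.{0} ℂ G} (f : M ⟶ M') (x : M.V) :
    cmap f (cmk M x) = cmk M' (f.hom x) := rfl

lemma exists_toF {M : Rep.{0} ℂ G} (f : M.V →ₗ[ℂ] ℂ) (hf : ∀ g x, f (M.ρ g x) = f x) :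
    ∃ b : Co M →ₗ[ℂ] ℂ, ∀ x, b (cmk M x) = f x :=
  ⟨Coinvariants.lift _ f fun g => LinearMap.ext fun x => hf g x, fun _ => rfl⟩

lemma exists_toF' {M : Rep.{0} ℂ G} (f : M ⟶ 𝟙_ _) :
    ∃ b : Co M →ₗ[ℂ] ℂ, ∀ x, b (cmk M x) = f.hom x :=
  exists_toF (f.hom.toLinearMap : M.V →ₗ[ℂ] ℂ) fun g x => Rep.hom_comm_apply f g x

/-- The invariant functional attached to a functional on the coinvariants. -/
noncomputable def ofF {M : Rep.{0} ℂ G} (b : Co M →ₗ[ℂ] ℂ) : M ⟶ 𝟙_ _ :=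
  Rep.ofHom ⟨(b ∘ₗ cmk M : M.V →ₗ[ℂ] ℂ), fun g => LinearMap.ext fun x => by
    show b (cmk M (M.ρ g x)) = b (cmk M x)
    rw [cmk, Coinvariants.mk_self_apply]⟩

lemma ofF_hom {M : Rep.{0} ℂ G} (b : Co M →ₗ[ℂ] ℂ) (x : M.V) :
    (ofF b).hom x = b (cmk M x) := rfl

/-- The invariant bilinear form attached to a bilinear form on the coinvariants. -/
noncomputable def ofB {M M' : Rep.{0} ℂ G} (b : Co M →ₗ[ℂ] Co M' →ₗ[ℂ] ℂ) : M ⊗ M' ⟶ 𝟙_ _ :=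
  Rep.ofHom ⟨(TensorProduct.lift (b.compl₁₂ (cmk M) (cmk M')) : M.V ⊗[ℂ] M'.V →ₗ[ℂ] ℂ),
    fun g => TensorProduct.ext' fun x y => by
      show b (cmk M (M.ρ g x)) (cmk M' (M'.ρ g y)) = b (cmk M x) (cmk M' y)
      rw [cmk, cmk, Coinvariants.mk_self_apply, Coinvariants.mk_self_apply]⟩

lemma ofB_hom {M M' : Rep.{0} ℂ G} (b : Co M →ₗ[ℂ] Co M' →ₗ[ℂ] ℂ) (x : M.V) (y : M'.V) :
    (ofB b).hom (x ⊗ₜ[ℂ] y : M.V ⊗[ℂ] M'.V) = b (cmk M x) (cmk M' y) := rfl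

lemma ext_tmul {M M' N : Rep.{0} ℂ G} {f g : M ⊗ M' ⟶ N}
    (h : ∀ (x : M.V) (y : M'.V), f.hom (x ⊗ₜ[ℂ] y : M.V ⊗[ℂ] M'.V) =
      g.hom (x ⊗ₜ[ℂ] y : M.V ⊗[ℂ] M'.V)) : f = g := by
  ext1
  apply Representation.IntertwiningMap.toLinearMap_injective
  exact TensorProduct.ext' h

lemma whiskerRight_hom {M M' : Rep.{0} ℂ G} (f : M ⟶ M') (N : Rep.{0} ℂ G) (x : M.V) (y : N.V) :
    (f ▷ N).hom (x ⊗ₜ[ℂ] y : M.V ⊗[ℂ] N.V) = (f.hom x ⊗ₜ[ℂ] y : M'.V ⊗[ℂ] N.V) := rfl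

lemma whiskerLeft_hom {M M' : Rep.{0} ℂ G} (N : Rep.{0} ℂ G) (f : M ⟶ M') (x : N.V) (y : M.V) :
    (N ◁ f).hom (x ⊗ₜ[ℂ] y : N.V ⊗[ℂ] M.V) = (x ⊗ₜ[ℂ] f.hom y : N.V ⊗[ℂ] M'.V) := rfl

lemma ι_d (K L : CochainComplex (Rep.{0} ℂ G) ℤ) (p p' q q' n n' : ℤ) (h : p + q = n)
    (hp : p + 1 = p') (hq : q + 1 = q') (hn : n + 1 = n') :
    ιTensorObj K L p q n h ≫ (HomologicalComplex.tensorObj K L).d n n' =
      (K.d p p' ▷ L.X q) ≫ ιTensorObj K L p' q n' (by omega) +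
      p.negOnePow • ((K.X p ◁ L.d q q') ≫ ιTensorObj K L p q' n' (by omega)) := by
  rw [mapBifunctor.d_eq, Preadditive.comp_add, mapBifunctor.ι_D₁, mapBifunctor.ι_D₂]
  rw [mapBifunctor.d₁_eq K L (curriedTensor _) _ (show (ComplexShape.up ℤ).Rel p p' from hp) q n'
    (show p' + q = n' by omega)]
  rw [mapBifunctor.d₂_eq K L (curriedTensor _) _ p (show (ComplexShape.up ℤ).Rel q q' from hq) n'
    (show p + q' = n' by omega)]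
  congr 1
  exact one_smul _ _

end Gen

lemma exists_toB {M M' : Rep.{0} ℂ GAinf} (hM : W M) (hM' : W M') (f : M ⊗ M' ⟶ 𝟙_ _) :
    ∃ b : Co M →ₗ[ℂ] Co M' →ₗ[ℂ] ℂ, ∀ (x : M.V) (y : M'.V),
      b (cmk M x) (cmk M' y) = f.hom (x ⊗ₜ[ℂ] y : M.V ⊗[ℂ] M'.V) := by
  obtain ⟨s, hs⟩ := (cmk M).exists_rightInverse_of_surjective
    (LinearMap.range_eq_top.mpr (cmk_surj M))
  obtain ⟨s', hs'⟩ := (cmk M').exists_rightInverse_of_surjective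
    (LinearMap.range_eq_top.mpr (cmk_surj M'))
  let F : M.V ⊗[ℂ] M'.V →ₗ[ℂ] ℂ := f.hom.toLinearMap
  refine ⟨(TensorProduct.curry F).compl₁₂ s s', fun x y => ?_⟩
  have h1 : ∀ (x₁ x₂ : M.V) (y : M'.V), cmk M x₁ = cmk M x₂ →
      F (x₁ ⊗ₜ[ℂ] y) = F (x₂ ⊗ₜ[ℂ] y) := by
    intro x₁ x₂ y h
    obtain ⟨b, hb⟩ := exists_toF (M := M) (F ∘ₗ (TensorProduct.mk ℂ M.V M'.V).flip y)
      fun g x => bilin_inv hM hM' f g x y
    exact (hb x₁).symm.trans ((congrArg b h).trans (hb x₂))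
  have h2 : ∀ (x : M.V) (y₁ y₂ : M'.V), cmk M' y₁ = cmk M' y₂ →
      F (x ⊗ₜ[ℂ] y₁) = F (x ⊗ₜ[ℂ] y₂) := by
    intro x y₁ y₂ h
    obtain ⟨b, hb⟩ := exists_toF (M := M') (F ∘ₗ (TensorProduct.mk ℂ M.V M'.V) x)
      fun g y => bilin_inv' hM hM' f g x y
    exact (hb y₁).symm.trans ((congrArg b h).trans (hb y₂))
  show F (s (cmk M x) ⊗ₜ[ℂ] s' (cmk M' y)) = F (x ⊗ₜ[ℂ] y)
  rw [h1 _ x _ (LinearMap.congr_fun hs (cmk M x)), h2 _ _ y (LinearMap.congr_fun hs' (cmk M' y))]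

end Pool.Agent.K1H1.GA
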