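import Pool.Agent.K1H1.GA.Closure

/-!
# Bounded derived categories and compatibility with tensor products
-/

open CategoryTheory Limits MonoidalCategory

namespace Pool.Agent.K1H1.GA

universe w w'

section Gen

variable {G : Type} [Group G] (V : Rep.{0} ℂ G)

/-- A cochain complex indexed by the integers is bounded: its terms vanish outside a finite
interval. -/
def IsBdd {C : Type*} [Category* C] [HasZeroMorphisms C] [HasZeroObject C]
    (K : CochainComplex C ℤ) : Prop :=
  ∃ a b : ℤ, K.IsStrictlyGE a ∧ K.IsStrictlyLE b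

/-- The object of the bounded derived category defined by a bounded complex. -/
noncomputable def toDb {C : Type*} [Category* C] [Abelian C] [HasDerivedCategory.{w} C]
    (K : CochainComplex C ℤ) (hK : IsBdd K) : DerivedCategory.Bounded C :=
  ⟨DerivedCategory.Q.obj K, by
    obtain ⟨a, b, ha, hb⟩ := hK
    exact ⟨⟨a, ⟨K, Iso.refl _, ha⟩⟩, ⟨b, ⟨K, Iso.refl _, hb⟩⟩⟩⟩

/-- A complex of objects of `Cat V`, seen as a complex of representations. -/
noncomputable abbrev incl :
    CochainComplex (Cat V) ℤ ⥤ CochainComplex (Rep.{0} ℂ G) ℤ :=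
  (IsSubquot V).ι.mapHomologicalComplex (ComplexShape.up ℤ)

/-- `T` is (isomorphic to) the tensor product complex of `K` and `L`. -/
def IsTensor (K L T : CochainComplex (Cat V) ℤ) : Prop :=
  Nonempty ((incl V).obj T ≅ HomologicalComplex.tensorObj ((incl V).obj K) ((incl V).obj L))

/-- The trivial one-dimensional representation, as an object of `Cat V`. -/
noncomputable def unitC : Cat V := ⟨𝟙_ _, isSubquot_unit V⟩

/-- An object of an abelian category, as a complex in degree zero. -/
noncomputable abbrev cx {C : Type*} [Category* C] [Abelian C] (X : C) : CochainComplex C ℤ :=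
  (HomologicalComplex.single C (ComplexShape.up ℤ) 0).obj X

lemma isBdd_cx {C : Type*} [Category* C] [Abelian C] (X : C) : IsBdd (cx X) :=
  ⟨0, 0, inferInstance, inferInstance⟩

end Gen

/-- A functor between the bounded derived categories commutes, at the level of isomorphism
classes of objects, with shifts, tensor units and tensor products. -/
structure IsTensorCompatible {G G' : Type} [Group G] [Group G'] {V : Rep.{0} ℂ G}
    {V' : Rep.{0} ℂ G'} [HasDerivedCategory.{w} (Cat V)] [HasDerivedCategory.{w'} (Cat V')]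
    (F : DerivedCategory.Bounded (Cat V) ⥤ DerivedCategory.Bounded (Cat V')) : Prop where
  shift : ∀ (X : DerivedCategory.Bounded (Cat V)) (n : ℤ),
    Nonempty (F.obj (X⟦n⟧) ≅ (F.obj X)⟦n⟧)
  unit : Nonempty (F.obj (toDb (cx (unitC V)) (isBdd_cx _)) ≅ toDb (cx (unitC V')) (isBdd_cx _))
  tensor : ∀ (K L T : CochainComplex (Cat V) ℤ) (K' L' T' : CochainComplex (Cat V') ℤ)
    (hK : IsBdd K) (hL : IsBdd L) (hT : IsBdd T) (hK' : IsBdd K') (hL' : IsBdd L')
    (hT' : IsBdd T'), IsTensor V K L T → IsTensor V' K' L' T' →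
    Nonempty (F.obj (toDb K hK) ≅ toDb K' hK') → Nonempty (F.obj (toDb L hL) ≅ toDb L' hL') →
    Nonempty (F.obj (toDb T hT) ≅ toDb T' hT')

end Pool.Agent.K1H1.GA
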