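import Mathlib

/-!
# Polynomial representations of the general affine group, algebraic representations of the
# infinite symmetric group, and their bounded derived categories
-/

open CategoryTheory Limits MonoidalCategory

namespace Pool.Agent.K1H1.GA

/-- The space `C^∞` with basis `e j = Finsupp.single j 1`, `j = 0, 1, 2, ...`. -/
abbrev VV : Type := ℕ →₀ ℂ

/-- The basis vectors. -/
noncomputable def e (j : ℕ) : VV := Finsupp.single j 1

/-- The group `GL(∞)`: invertible linear maps which, for some `N`, fix all `e j` with `j ≥ N` and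
preserve all coordinates `i ≥ N`, so the matrix differs from the identity matrix only in the
upper left block of size `N`. -/
def GLinf : Subgroup (VV ≃ₗ[ℂ] VV) where
  carrier := {g | ∃ N : ℕ, (∀ j, N ≤ j → g (e j) = e j) ∧ ∀ (v : VV) (i : ℕ), N ≤ i → g v i = v i}
  mul_mem' := by
    rintro a b ⟨N, ha1, ha2⟩ ⟨M, hb1, hb2⟩
    refine ⟨max N M, fun j hj => ?_, fun v i hi => ?_⟩
    · rw [LinearEquiv.mul_apply, hb1 j (le_trans (le_max_right _ _) hj),
        ha1 j (le_trans (le_max_left _ _) hj)]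
    · rw [LinearEquiv.mul_apply, ha2 _ i (le_trans (le_max_left _ _) hi),
        hb2 _ i (le_trans (le_max_right _ _) hi)]
  one_mem' := ⟨0, fun _ _ => rfl, fun _ _ _ => rfl⟩
  inv_mem' := by
    rintro a ⟨N, ha1, ha2⟩
    refine ⟨N, fun j hj => ?_, fun v i hi => ?_⟩
    · have h : a (a⁻¹ (e j)) = e j := LinearEquiv.apply_symm_apply a (e j)
      apply a.injective
      rw [h, ha1 j hj]
    · have h : a (a⁻¹ v) = v := LinearEquiv.apply_symm_apply a v
      have h2 := ha2 (a⁻¹ v) i hi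
      rw [h] at h2
      exact h2.symm

/-- The general affine group `GA(∞)`: the stabilizer in `GL(∞)` of the functional `t` which sends
a vector to its coordinate at the first basis vector `e 0`. -/
def GAinf : Subgroup (VV ≃ₗ[ℂ] VV) where
  carrier := {g | g ∈ GLinf ∧ ∀ v : VV, g v 0 = v 0}
  mul_mem' := by
    rintro a b ⟨ha, ha2⟩ ⟨hb, hb2⟩
    exact ⟨GLinf.mul_mem ha hb, fun v => by rw [LinearEquiv.mul_apply, ha2, hb2]⟩
  one_mem' := ⟨GLinf.one_mem, fun _ => rfl⟩
  inv_mem' := by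
    rintro a ⟨ha, ha2⟩
    refine ⟨GLinf.inv_mem ha, fun v => ?_⟩
    have h : a (a⁻¹ v) = v := LinearEquiv.apply_symm_apply a v
    have h2 := ha2 (a⁻¹ v)
    rw [h] at h2
    exact h2.symm

/-- The infinite symmetric group: the elements of `GL(∞)` which permute the basis vectors. (Being
in `GL(∞)`, such a permutation moves only finitely many basis vectors.) -/
def SSinf : Subgroup (VV ≃ₗ[ℂ] VV) where
  carrier := {g | g ∈ GLinf ∧ ∃ σ : Equiv.Perm ℕ, ∀ j, g (e j) = e (σ j)}
  mul_mem' := by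
    rintro a b ⟨ha, σ, hσ⟩ ⟨hb, τ, hτ⟩
    exact ⟨GLinf.mul_mem ha hb, σ * τ, fun j => by
      rw [LinearEquiv.mul_apply, hτ, hσ, Equiv.Perm.mul_apply]⟩
  one_mem' := ⟨GLinf.one_mem, 1, fun _ => rfl⟩
  inv_mem' := by
    rintro a ⟨ha, σ, hσ⟩
    refine ⟨GLinf.inv_mem ha, σ⁻¹, fun j => ?_⟩
    apply a.injective
    have h : a (a⁻¹ (e j)) = e j := LinearEquiv.apply_symm_apply a (e j)
    rw [h, hσ, ← Equiv.Perm.mul_apply, mul_inv_cancel, Equiv.Perm.one_apply]

/-- The tautological representation of a group of invertible linear maps of `C^∞`. -/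
noncomputable def std (H : Subgroup (VV ≃ₗ[ℂ] VV)) : Rep.{0} ℂ H :=
  Rep.of (X := VV) (ρ := ((LinearEquiv.automorphismGroup.toLinearMapMonoidHom).comp H.subtype :
    Representation ℂ H VV))

lemma std_ρ (H : Subgroup (VV ≃ₗ[ℂ] VV)) (g : H) (v : VV) :
    (std H).ρ g v = (g : VV ≃ₗ[ℂ] VV) v := rfl

section General

variable {G : Type} [Group G]

noncomputable instance instBiprod : HasFiniteBiproducts (Rep.{0} ℂ G) := Abelian.hasFiniteBiproducts

/-- The tensor powers `V^{⊗ n}` of a representation. -/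
noncomputable def tpow (V : Rep.{0} ℂ G) : ℕ → Rep.{0} ℂ G
  | 0 => 𝟙_ _
  | n + 1 => V ⊗ tpow V n

/-- `M` is a subquotient of a finite direct sum of tensor powers `V^{⊗ n}`, `n ≥ 0`. -/
def IsSubquot (V : Rep.{0} ℂ G) : ObjectProperty (Rep.{0} ℂ G) := fun M =>
  ∃ (J : Type) (_ : Finite J) (n : J → ℕ) (N : Rep.{0} ℂ G)
    (i : N ⟶ ⨁ fun j => tpow V (n j)) (p : N ⟶ M), Mono i ∧ Epi p

end General

end Pool.Agent.K1H1.GA
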