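import Pool.Agent.K1H1.GA.ATens
import Pool.Agent.K1H1.GA.BTens

/-!
# There is no tensor triangulated equivalence between the bounded derived categories of
# polynomial representations of the infinite general affine group and of algebraic
# representations of the infinite symmetric group
-/

open CategoryTheory Limits MonoidalCategory

namespace Pool.Agent.K1H1.GA

universe w w'

section Gen

open DerivedCategory

variable {C : Type*} [Category* C] [Abelian C] [HasDerivedCategory.{w} C]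

lemma exists_complex (Y : DerivedCategory.Bounded C) :
    ∃ (K : CochainComplex C ℤ) (hK : IsBdd K), Nonempty (Y ≅ toDb K hK) := by
  obtain ⟨⟨a, ha⟩, ⟨b, hb⟩⟩ := Y.property
  have h1 : Y.obj.IsGE a := ha
  have h2 : Y.obj.IsLE b := hb
  obtain ⟨K, h3, h4, ⟨e⟩⟩ := DerivedCategory.exists_iso_Q_obj_of_isGE_of_isLE Y.obj a b
  exact ⟨K, ⟨a, b, h3, h4⟩, ⟨ObjectProperty.isoMk _ e⟩⟩

lemma subsingleton_iff (K L : CochainComplex C ℤ) (hK : IsBdd K) (hL : IsBdd L) (i : ℤ) :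
    Subsingleton (toDb K hK ⟶ (toDb L hL)⟦i⟧) ↔ Subsingleton (Q.obj K ⟶ (Q.obj L)⟦i⟧) := by
  have e : (Bounded.ι.obj ((toDb L hL)⟦i⟧)) ≅ (Q.obj L)⟦i⟧ :=
    (Bounded.ι.commShiftIso i).app (toDb L hL)
  have e1 : (toDb K hK ⟶ (toDb L hL)⟦i⟧) ≃ (Bounded.ι.obj (toDb K hK) ⟶
      Bounded.ι.obj ((toDb L hL)⟦i⟧)) := Functor.FullyFaithful.homEquiv (Functor.FullyFaithful.ofFullyFaithful _)
  have e2 : (Bounded.ι.obj (toDb K hK) ⟶
      Bounded.ι.obj ((toDb L hL)⟦i⟧)) ≃ (Q.obj K ⟶ (Q.obj L)⟦i⟧) :=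
    e.homToEquiv
  exact (e1.trans e2).subsingleton_congr

lemma cyc_iff (K L : CochainComplex C ℤ) (hK : IsBdd K) (hL : IsBdd L) :
    Cyc (toDb K hK) (toDb L hL) ↔ Cyc (Q.obj K) (Q.obj L) :=
  ⟨fun h => h.map Bounded.ι, fun h => Cyc.of_map Bounded.ι h⟩

end Gen

theorem main_internal [HasDerivedCategory.{w} (Cat (std GAinf))]
    [HasDerivedCategory.{w'} (Cat (std SSinf))] :
    ¬ ∃ F : DerivedCategory.Bounded (Cat (std GAinf)) ≌ DerivedCategory.Bounded (Cat (std SSinf)),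
      IsTensorCompatible F.functor := by
  rintro ⟨F, hF⟩
  obtain ⟨K, hK, ⟨eK⟩⟩ := exists_complex (F.inverse.obj (toDb (cx vS) (isBdd_cx _)))
  have eF : F.functor.obj (toDb K hK) ≅ toDb (cx vS) (isBdd_cx _) :=
    F.functor.mapIso eK.symm ≪≫ F.counitIso.app _
  obtain ⟨eU⟩ := hF.unit
  have hneg : ∀ q : ℤ, 0 < q → Subsingleton (DerivedCategory.Q.obj K ⟶
      DerivedCategory.Q.obj (sg q II)) := by
    intro q hq
    obtain ⟨eS⟩ := hF.shift (toDb (cx II) (isBdd_cx _)) (-q)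
    have h1 := (subsingleton_iff (cx vS) (cx IS) (isBdd_cx _) (isBdd_cx _) (-q)).mpr
      (neg_subsingleton vS IS (-q) (by omega))
    have e3 : F.functor.obj ((toDb (cx II) (isBdd_cx _))⟦-q⟧) ≅
        (toDb (cx IS) (isBdd_cx _))⟦-q⟧ := eS ≪≫ (shiftFunctor _ (-q)).mapIso eU
    have h2 : Subsingleton (toDb K hK ⟶ (toDb (cx II) (isBdd_cx _))⟦-q⟧) := by
      refine ⟨fun f g => F.functor.map_injective ?_⟩
      rw [← cancel_epi eF.inv, ← cancel_mono e3.hom]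
      exact Subsingleton.elim _ _
    have h3 := (subsingleton_iff _ _ _ _ _).mp h2
    refine ⟨fun f g => ?_⟩
    have e4 : (DerivedCategory.Q.obj (cx II))⟦-q⟧ ≅ DerivedCategory.Q.obj (sg q II) := by
      have := shiftSg II (-q)
      rwa [neg_neg] at this
    rw [← cancel_mono e4.inv]
    exact Subsingleton.elim _ _
  have hcyc : Cyc (DerivedCategory.Q.obj K) (DerivedCategory.Q.obj (sg 0 II)) := by
    have h1 : Cyc (toDb (cx vS) (isBdd_cx _)) (toDb (cx IS) (isBdd_cx _)) :=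
      (cyc_iff _ _ _ _).mpr ((cyc_single_iff vS IS).mpr cyc_vS)
    exact (cyc_iff _ _ hK (isBdd_cx _)).mp (Cyc.of_map F.functor (h1.of_iso eF.symm eU.symm))
  obtain ⟨T, hTb, hT⟩ := exists_tensor (std GAinf) K K hK hK
  obtain ⟨T', hTb', hT'⟩ := exists_tensor (std SSinf) (cx vS) (cx vS) (isBdd_cx _) (isBdd_cx _)
  have h1 := cyc_tensor K T hT hneg hcyc
  obtain ⟨eT⟩ := hF.tensor K K T (cx vS) (cx vS) T' hK hK hTb (isBdd_cx _) (isBdd_cx _) hTb'
    hT hT' ⟨eF⟩ ⟨eF⟩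
  have h2 : Cyc (toDb T hTb) (toDb (cx II) (isBdd_cx _)) := (cyc_iff _ _ _ _).mpr h1
  have h3 : Cyc (toDb T' hTb') (toDb (cx IS) (isBdd_cx _)) := (h2.map F.functor).of_iso eT eU
  exact not_cyc T' hT' ((cyc_iff _ _ _ _).mp h3)

end Pool.Agent.K1H1.GA
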