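import Pool.Agent.K1H1.GA.Closure

/-!
# Weight expansions of polynomial representations of `GA(∞)`
-/

open CategoryTheory Limits MonoidalCategory TensorProduct

namespace Pool.Agent.K1H1.GA

noncomputable def sc (s : ℂˣ) (N : ℕ) (i : ℕ) : ℂ := if 1 ≤ i ∧ i < N then (s : ℂ) else 1

noncomputable def scFun (s : ℂˣ) (N : ℕ) (v : VV) : VV :=
  Finsupp.onFinset v.support (fun i => sc s N i * v i) (by
    intro i hi
    rw [Finsupp.mem_support_iff]
    intro h
    rw [h, mul_zero] at hi
    exact hi rfl)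

lemma scFun_apply (s : ℂˣ) (N : ℕ) (v : VV) (i : ℕ) : scFun s N v i = sc s N i * v i := rfl

lemma sc_mul_inv (s : ℂˣ) (N i : ℕ) : sc s N i * sc s⁻¹ N i = 1 := by
  unfold sc
  split_ifs
  · simp
  · simp

noncomputable def scEquiv (s : ℂˣ) (N : ℕ) : VV ≃ₗ[ℂ] VV where
  toFun := scFun s N
  invFun := scFun s⁻¹ N
  map_add' v w := by
    ext i
    rw [Finsupp.add_apply, scFun_apply, scFun_apply, scFun_apply, Finsupp.add_apply, mul_add]
  map_smul' a v := by
    ext i
    rw [RingHom.id_apply, Finsupp.smul_apply, scFun_apply, scFun_apply, Finsupp.smul_apply,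
      smul_eq_mul, smul_eq_mul]
    ring
  left_inv v := by
    ext i
    rw [scFun_apply, scFun_apply, ← mul_assoc, mul_comm (sc s⁻¹ N i), sc_mul_inv, one_mul]
  right_inv v := by
    ext i
    rw [scFun_apply, scFun_apply, ← mul_assoc, sc_mul_inv, one_mul]

lemma scEquiv_apply (s : ℂˣ) (N : ℕ) (v : VV) (i : ℕ) : scEquiv s N v i = sc s N i * v i := rfl

/-- The diagonal matrix `diag(1, s, ..., s, 1, 1, ...)`. -/
noncomputable def gel (s : ℂˣ) (N : ℕ) : GAinf :=
  ⟨scEquiv s N, ⟨N, fun j hj => by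
      ext i
      rw [scEquiv_apply]
      unfold sc e
      by_cases h : i = j
      · subst h; rw [if_neg (by omega), one_mul]
      · rw [Finsupp.single_eq_of_ne h, mul_zero], fun v i hi => by
      rw [scEquiv_apply]
      unfold sc
      rw [if_neg (by omega), one_mul]⟩, fun v => by
      rw [scEquiv_apply]
      unfold sc
      rw [if_neg (by omega), one_mul]⟩

section Ev

variable {M N : Type} [AddCommGroup M] [Module ℂ M] [AddCommGroup N] [Module ℂ N]

/-- Evaluation of a polynomial with vector coefficients. -/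
noncomputable def ev (s : ℂ) : (ℕ →₀ M) →ₗ[ℂ] M :=
  Finsupp.lsum ℂ (fun d => (s ^ d) • (LinearMap.id : M →ₗ[ℂ] M))

lemma ev_single (s : ℂ) (d : ℕ) (v : M) : ev s (Finsupp.single d v) = s ^ d • v := by
  simp [ev]

lemma ev_apply (s : ℂ) (c : ℕ →₀ M) : ev s c = c.sum fun d v => s ^ d • v := by
  simp [ev, Finsupp.sum]

lemma ev_map (f : M →ₗ[ℂ] N) (s : ℂ) (c : ℕ →₀ M) :
    ev s (Finsupp.mapRange.linearMap f c) = f (ev s c) := by
  induction c using Finsupp.induction_linear with
  | zero => simp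
  | add a b ha hb => rw [map_add, map_add, map_add, map_add, ha, hb]
  | single d v => simp [ev_single]

lemma vander (c : ℕ →₀ M) (h : ∀ s : ℂˣ, ev (s : ℂ) c = 0) : c = 0 := by
  have key : ∀ u : Module.Dual ℂ M, ∀ d, u (c d) = 0 := by
    intro u d
    let P : Polynomial ℂ := ∑ k ∈ c.support, Polynomial.monomial k (u (c k))
    have hP : ∀ s : ℂˣ, P.eval (s : ℂ) = 0 := by
      intro s
      have h1 := congrArg u (h s)
      rw [ev_apply, map_zero, Finsupp.sum, map_sum] at h1
      rw [Polynomial.eval_finsetSum, ← h1]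
      refine Finset.sum_congr rfl fun k _ => ?_
      rw [Polynomial.eval_monomial, map_smul, smul_eq_mul, mul_comm]
    have h0 : P = 0 := by
      apply Polynomial.eq_zero_of_infinite_isRoot
      apply Set.Infinite.mono (s := ({0}ᶜ : Set ℂ))
      · intro s hs
        exact hP (Units.mk0 s hs)
      · exact (Set.finite_singleton 0).infinite_compl
    have h2 : P.coeff d = u (c d) := by
      rw [Polynomial.finsetSum_coeff]
      by_cases hd : d ∈ c.support
      · rw [Finset.sum_eq_single d]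
        · rw [Polynomial.coeff_monomial, if_pos rfl]
        · intro k _ hk
          rw [Polynomial.coeff_monomial, if_neg hk]
        · intro h; exact absurd hd h
      · rw [Finset.sum_eq_zero]
        · rw [Finsupp.notMem_support_iff.mp hd, map_zero]
        · intro k hk
          rw [Polynomial.coeff_monomial, if_neg]
          rintro rfl
          exact hd hk
    rw [← h2, h0, Polynomial.coeff_zero]
  ext d
  rw [Finsupp.zero_apply]
  exact (Module.forall_dual_apply_eq_zero_iff ℂ (c d)).mp fun u => key u d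

/-- Convolution of expansions. -/
noncomputable def conv (c : ℕ →₀ M) (c' : ℕ →₀ N) : ℕ →₀ (M ⊗[ℂ] N) :=
  c.sum fun d v => c'.sum fun k w => Finsupp.single (d + k) (v ⊗ₜ[ℂ] w)

lemma ev_conv (s : ℂ) (c : ℕ →₀ M) (c' : ℕ →₀ N) :
    ev s (conv c c') = ev s c ⊗ₜ[ℂ] ev s c' := by
  rw [ev_apply s c, ev_apply s c', conv, Finsupp.sum, Finsupp.sum, Finsupp.sum, map_sum,
    TensorProduct.sum_tmul]
  refine Finset.sum_congr rfl fun d _ => ?_
  rw [Finsupp.sum, map_sum, TensorProduct.tmul_sum]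
  refine Finset.sum_congr rfl fun k _ => ?_
  rw [ev_single, TensorProduct.smul_tmul_smul, pow_add]

lemma conv_zero (c : ℕ →₀ M) (c' : ℕ →₀ N) : conv c c' 0 = c 0 ⊗ₜ[ℂ] c' 0 := by
  rw [conv, Finsupp.sum, Finsupp.finsetSum_apply]
  by_cases h0 : (0 : ℕ) ∈ c.support
  · rw [Finset.sum_eq_single 0]
    · rw [Finsupp.sum, Finsupp.finsetSum_apply]
      by_cases h1 : (0 : ℕ) ∈ c'.support
      · rw [Finset.sum_eq_single 0]
        · simp
        · intro k _ hk
          rw [Finsupp.single_apply, if_neg (by omega)]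
        · intro h; exact absurd h1 h
      · rw [Finsupp.notMem_support_iff.mp h1, TensorProduct.tmul_zero]
        apply Finset.sum_eq_zero
        intro k hk
        rw [Finsupp.single_apply, if_neg]
        intro h
        have : k = 0 := by omega
        exact h1 (this ▸ hk)
    · intro k _ hk
      rw [Finsupp.sum, Finsupp.finsetSum_apply]
      apply Finset.sum_eq_zero
      intro l _
      rw [Finsupp.single_apply, if_neg (by omega)]
    · intro h; exact absurd h0 h
  · rw [Finsupp.notMem_support_iff.mp h0, TensorProduct.zero_tmul]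
    apply Finset.sum_eq_zero
    intro k hk
    rw [Finsupp.sum, Finsupp.finsetSum_apply]
    apply Finset.sum_eq_zero
    intro l _
    rw [Finsupp.single_apply, if_neg]
    intro h
    have : k = 0 := by omega
    exact h0 (this ▸ hk)

end Ev

/-- `c` is the weight expansion of the vector `x`. -/
def HasExp (M : Rep.{0} ℂ GAinf) (x : M.V) (c : ℕ →₀ M.V) : Prop :=
  ∃ N0 : ℕ, ∀ N, N0 ≤ N → ∀ s : ℂˣ, M.ρ (gel s N) x = ev (s : ℂ) c

section Exp

variable {M M' : Rep.{0} ℂ GAinf}

lemma HasExp.unique {x : M.V} {c c' : ℕ →₀ M.V} (h : HasExp M x c) (h' : HasExp M x c') :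
    c = c' := by
  obtain ⟨N1, h1⟩ := h
  obtain ⟨N2, h2⟩ := h'
  rw [← sub_eq_zero]
  apply vander
  intro s
  rw [map_sub, ← h1 (max N1 N2) (le_max_left _ _) s, ← h2 (max N1 N2) (le_max_right _ _) s,
    sub_self]

lemma HasExp.add {x y : M.V} {c c' : ℕ →₀ M.V} (h : HasExp M x c) (h' : HasExp M y c') :
    HasExp M (x + y) (c + c') := by
  obtain ⟨N1, h1⟩ := h
  obtain ⟨N2, h2⟩ := h'
  refine ⟨max N1 N2, fun N hN s => ?_⟩
  rw [map_add, map_add, h1 N (le_trans (le_max_left _ _) hN) s,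
    h2 N (le_trans (le_max_right _ _) hN) s]

lemma HasExp.smul {x : M.V} {c : ℕ →₀ M.V} (h : HasExp M x c) (a : ℂ) :
    HasExp M (a • x) (a • c) := by
  obtain ⟨N1, h1⟩ := h
  refine ⟨N1, fun N hN s => ?_⟩
  rw [map_smul, map_smul, h1 N hN s]

lemma HasExp.zero : HasExp M 0 0 := ⟨0, fun N _ s => by rw [map_zero, map_zero]⟩

lemma HasExp.map {x : M.V} {c : ℕ →₀ M.V} (h : HasExp M x c) (f : M ⟶ M') :
    HasExp M' (f.hom x) (Finsupp.mapRange.linearMap f.hom.toLinearMap c) := by
  obtain ⟨N1, h1⟩ := h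
  refine ⟨N1, fun N hN s => ?_⟩
  rw [ev_map, ← h1 N hN s]
  exact (Rep.hom_comm_apply f _ _).symm

lemma HasExp.tmul {x : M.V} {y : M'.V} {c : ℕ →₀ M.V} {c' : ℕ →₀ M'.V} (h : HasExp M x c)
    (h' : HasExp M' y c') : HasExp (M ⊗ M') (x ⊗ₜ[ℂ] y) (conv c c') := by
  obtain ⟨N1, h1⟩ := h
  obtain ⟨N2, h2⟩ := h'
  refine ⟨max N1 N2, fun N hN s => ?_⟩
  rw [ev_conv, ← h1 N (le_trans (le_max_left _ _) hN) s,
    ← h2 N (le_trans (le_max_right _ _) hN) s]
  rfl

end Exp

/-- Every vector has a weight expansion, and the constant term of the expansion is invariant. -/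
structure W (M : Rep.{0} ℂ GAinf) : Prop where
  ex : ∀ x : M.V, ∃ c, HasExp M x c
  inv : ∀ (g : GAinf) (x : M.V) (c c' : ℕ →₀ M.V), HasExp M x c → HasExp M (M.ρ g x) c' →
    c 0 = c' 0

end Pool.Agent.K1H1.GA
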