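import Pool.Agent.K1H1.GA.Wt

/-!
# Polynomial representations of `GA(∞)` have weight expansions with invariant constant term
-/

open CategoryTheory Limits MonoidalCategory TensorProduct

namespace Pool.Agent.K1H1.GA

lemma key_std (x : VV) : ∀ N, x.support.sup id + 2 ≤ N → ∀ s : ℂˣ, scEquiv s N x =
    ev (s : ℂ) (Finsupp.single 0 (Finsupp.single 0 (x 0)) +
      Finsupp.single 1 (x - Finsupp.single 0 (x 0))) := by
  intro N hN s
  rw [map_add, ev_single, ev_single, pow_zero, one_smul, pow_one]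
  ext i
  rw [scEquiv_apply]
  rw [Finsupp.add_apply, Finsupp.smul_apply, Finsupp.sub_apply, smul_eq_mul]
  unfold sc
  by_cases hi : i = 0
  · subst hi
    rw [if_neg (by omega), Finsupp.single_eq_same]
    ring
  · rw [Finsupp.single_eq_of_ne hi, sub_zero, zero_add]
    by_cases hN2 : i < N
    · rw [if_pos ⟨by omega, hN2⟩]
    · rw [if_neg (fun h => hN2 h.2)]
      have : x i = 0 := by
        by_contra hx
        have h2 : i ≤ x.support.sup id := Finset.le_sup (f := id) (Finsupp.mem_support_iff.mpr hx)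
        omega
      rw [this, mul_zero, mul_zero]

lemma W_std : W (std GAinf) := by
  have key : ∀ x : VV, HasExp (std GAinf) x
      (Finsupp.single 0 (Finsupp.single 0 (x 0)) +
        Finsupp.single 1 (x - Finsupp.single 0 (x 0)) : ℕ →₀ VV) :=
    fun x => ⟨_, key_std x⟩
  have at0 : ∀ a b : VV, (Finsupp.single 0 a + Finsupp.single 1 b : ℕ →₀ VV) 0 = a := by
    intro a b
    rw [Finsupp.add_apply, Finsupp.single_eq_same,
      Finsupp.single_eq_of_ne (show (0 : ℕ) ≠ 1 by omega), add_zero]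
  refine ⟨fun x => ⟨_, key x⟩, fun g x c c' hc hc' => ?_⟩
  have h1 := hc.unique (key x)
  have h2 := hc'.unique (key ((g : VV ≃ₗ[ℂ] VV) x))
  rw [h1, h2]
  refine (at0 _ _).trans ?_
  refine Eq.trans ?_ (at0 _ _).symm
  exact congrArg (Finsupp.single 0) (g.2.2 x).symm

lemma W_unit : W (𝟙_ (Rep.{0} ℂ GAinf)) := by
  have key : ∀ x : (𝟙_ (Rep.{0} ℂ GAinf)).V, HasExp (𝟙_ _) x (Finsupp.single 0 x) := by
    intro x
    refine ⟨0, fun N _ s => ?_⟩
    rw [ev_single, pow_zero, one_smul]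
    rfl
  refine ⟨fun x => ⟨_, key x⟩, fun g x c c' hc hc' => ?_⟩
  rw [hc.unique (key x), hc'.unique (key x)]

lemma W_tensor {M M' : Rep.{0} ℂ GAinf} (h : W M) (h' : W M') : W (M ⊗ M') := by
  have key : ∀ z : (M ⊗ M').V, ∃ c, HasExp (M ⊗ M') z c ∧ ∀ g : GAinf,
      ∃ c', HasExp (M ⊗ M') ((M ⊗ M').ρ g z) c' ∧ c 0 = c' 0 := by
    intro z
    induction z using TensorProduct.induction_on with
    | zero =>
      refine ⟨0, HasExp.zero, fun g => ⟨0, ?_, rfl⟩⟩
      rw [map_zero]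
      exact HasExp.zero
    | tmul x y =>
      obtain ⟨c, hc⟩ := h.ex x
      obtain ⟨c', hc'⟩ := h'.ex y
      refine ⟨conv c c', hc.tmul hc', fun g => ?_⟩
      obtain ⟨d, hd⟩ := h.ex (M.ρ g x)
      obtain ⟨d', hd'⟩ := h'.ex (M'.ρ g y)
      refine ⟨conv d d', hd.tmul hd', ?_⟩
      rw [conv_zero, conv_zero, h.inv g x c d hc hd, h'.inv g y c' d' hc' hd']
    | add a b ha hb =>
      obtain ⟨c, hc, hc2⟩ := ha
      obtain ⟨d, hd, hd2⟩ := hb
      refine ⟨c + d, hc.add hd, fun g => ?_⟩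
      obtain ⟨c', hc', e1⟩ := hc2 g
      obtain ⟨d', hd', e2⟩ := hd2 g
      refine ⟨c' + d', ?_, ?_⟩
      · rw [map_add]; exact hc'.add hd'
      · rw [Finsupp.add_apply, Finsupp.add_apply, e1, e2]
  refine ⟨fun z => ?_, fun g z c c' hc hc' => ?_⟩
  · obtain ⟨c, hc, -⟩ := key z
    exact ⟨c, hc⟩
  · obtain ⟨d, hd, hd2⟩ := key z
    obtain ⟨d', hd', e1⟩ := hd2 g
    rw [hc.unique hd, hc'.unique hd', e1]

lemma W_tpow (n : ℕ) : W (tpow (std GAinf) n) := by
  induction n with
  | zero => exact W_unit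
  | succ n ih => exact W_tensor W_std ih

lemma W_quot {M M' : Rep.{0} ℂ GAinf} (p : M ⟶ M') [Epi p] (h : W M) : W M' := by
  have hp : Function.Surjective p.hom := (Rep.epi_iff_surjective p).mp inferInstance
  refine ⟨fun x => ?_, fun g x c c' hc hc' => ?_⟩
  · obtain ⟨y, rfl⟩ := hp x
    obtain ⟨c, hc⟩ := h.ex y
    exact ⟨_, hc.map p⟩
  · obtain ⟨y, rfl⟩ := hp x
    obtain ⟨d, hd⟩ := h.ex y
    obtain ⟨d', hd'⟩ := h.ex (M.ρ g y)
    have h1 := hc.unique (hd.map p)
    have h2 : HasExp M' (M'.ρ g (p.hom y)) (Finsupp.mapRange.linearMap p.hom.toLinearMap d') := by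
      have := hd'.map p
      rwa [Rep.hom_comm_apply] at this
    have h3 := hc'.unique h2
    rw [h1, h3]
    show p.hom (d 0) = p.hom (d' 0)
    rw [h.inv g y d d' hd hd']

lemma W_sub {M M' : Rep.{0} ℂ GAinf} (i : M ⟶ M') [Mono i] (h : W M') : W M := by
  have hi : Function.Injective i.hom := (Rep.mono_iff_injective i).mp inferInstance
  have ex : ∀ x : M.V, ∃ c, HasExp M x c := by
    intro x
    obtain ⟨c, hc⟩ := h.ex (i.hom x)
    have hc0 := hc
    obtain ⟨N0, hN0⟩ := hc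
    -- coefficients lie in the range
    have hr : ∀ d, c d ∈ LinearMap.range i.hom.toLinearMap := by
      have hz : Finsupp.mapRange.linearMap (LinearMap.range i.hom.toLinearMap).mkQ c = 0 := by
        apply vander
        intro s
        rw [ev_map, ← hN0 N0 le_rfl s, Submodule.mkQ_apply, Submodule.Quotient.mk_eq_zero]
        exact ⟨M.ρ (gel s N0) x, Rep.hom_comm_apply i _ _⟩
      intro d
      have := DFunLike.congr_fun hz d
      rw [Finsupp.mapRange.linearMap_apply, Finsupp.mapRange_apply, Finsupp.zero_apply,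
        Submodule.mkQ_apply, Submodule.Quotient.mk_eq_zero] at this
      exact this
    obtain ⟨r, hr2⟩ : ∃ r : M'.V →ₗ[ℂ] M.V, r ∘ₗ i.hom.toLinearMap = LinearMap.id :=
      LinearMap.exists_leftInverse_of_injective _ (LinearMap.ker_eq_bot.mpr hi)
    have hr3 : ∀ y ∈ LinearMap.range i.hom.toLinearMap, i.hom (r y) = y := by
      rintro y ⟨z, rfl⟩
      have := LinearMap.congr_fun hr2 z
      simp only [LinearMap.comp_apply, LinearMap.id_apply] at this
      show i.hom (r (i.hom.toLinearMap z)) = _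
      rw [this]
      rfl
    refine ⟨Finsupp.mapRange.linearMap r c, N0, fun N hN s => ?_⟩
    apply hi
    have e1 : i.hom (M.ρ (gel s N) x) = ev (s : ℂ) c := by
      rw [Rep.hom_comm_apply, hN0 N hN s]
    rw [e1]
    have e2 : i.hom (ev (s : ℂ) (Finsupp.mapRange.linearMap r c)) =
        ev (s : ℂ) (Finsupp.mapRange.linearMap i.hom.toLinearMap
          (Finsupp.mapRange.linearMap r c)) := (ev_map i.hom.toLinearMap _ _).symm
    rw [e2]
    congr 1
    ext d
    exact (hr3 _ (hr d)).symm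
  refine ⟨ex, fun g x c c' hc hc' => ?_⟩
  apply hi
  have h1 := hc.map i
  have h2 := hc'.map i
  rw [Rep.hom_comm_apply] at h2
  exact h.inv g _ _ _ h1 h2

lemma W_biprod {J : Type} [Finite J] (M : J → Rep.{0} ℂ GAinf) (h : ∀ j, W (M j)) :
    W (⨁ M) := by
  classical
  have := Fintype.ofFinite J
  have tot : ∀ x : (⨁ M).V, x = ∑ j, (biproduct.ι M j).hom ((biproduct.π M j).hom x) := by
    intro x
    let A : (⨁ M ⟶ ⨁ M) →+ (⨁ M).V :=
      { toFun := fun f => f.hom x, map_zero' := rfl, map_add' := fun _ _ => rfl }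
    have h1 := congrArg A (biproduct.total (f := M))
    rw [map_sum] at h1
    exact h1.symm
  have hex : ∀ (s : Finset J) (v : ∀ j, (M j).V) (c : ∀ j, ℕ →₀ (M j).V),
      (∀ j, HasExp (M j) (v j) (c j)) →
      HasExp (⨁ M) (∑ j ∈ s, (biproduct.ι M j).hom (v j))
        (∑ j ∈ s, Finsupp.mapRange.linearMap (biproduct.ι M j).hom.toLinearMap (c j)) := by
    intro s v c hc
    induction s using Finset.induction_on with
    | empty => rw [Finset.sum_empty, Finset.sum_empty]; exact HasExp.zero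
    | insert j s hj ih =>
      rw [Finset.sum_insert hj, Finset.sum_insert hj]
      exact ((hc j).map _).add ih
  refine ⟨fun x => ?_, fun g x c c' hc hc' => ?_⟩
  · choose c hc using fun j => (h j).ex ((biproduct.π M j).hom x)
    have h1 := hex Finset.univ _ c hc
    rw [← tot x] at h1
    exact ⟨_, h1⟩
  · choose d hd using fun j => (h j).ex ((biproduct.π M j).hom x)
    choose d' hd' using fun j => (h j).ex ((M j).ρ g ((biproduct.π M j).hom x))
    have h1 := hex Finset.univ _ d hd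
    rw [← tot x] at h1
    have h2 := hex Finset.univ _ d' hd'
    have h3 : ∑ j, (biproduct.ι M j).hom ((M j).ρ g ((biproduct.π M j).hom x)) =
        (⨁ M).ρ g x := by
      conv_rhs => rw [tot x]
      rw [map_sum]
      refine Finset.sum_congr rfl fun j _ => ?_
      exact Rep.hom_comm_apply _ _ _
    rw [h3] at h2
    rw [hc.unique h1, hc'.unique h2, Finsupp.finsetSum_apply, Finsupp.finsetSum_apply]
    refine Finset.sum_congr rfl fun j _ => ?_
    show (biproduct.ι M j).hom (d j 0) = (biproduct.ι M j).hom (d' j 0)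
    rw [(h j).inv g _ _ _ (hd j) (hd' j)]

theorem W_poly {M : Rep.{0} ℂ GAinf} (h : IsSubquot (std GAinf) M) : W M := by
  obtain ⟨J, hJ, n, N, i, p, hi, hp⟩ := h
  exact W_quot p (W_sub i (W_biprod _ fun j => W_tpow (n j)))

/-- The value of an invariant functional is its value at the constant term. -/
lemma func_eq {M : Rep.{0} ℂ GAinf} (f : M ⟶ 𝟙_ _) {x : M.V} {c : ℕ →₀ M.V}
    (h : HasExp M x c) : f.hom x = f.hom (c 0) := by
  obtain ⟨N0, hN0⟩ := h
  have h1 : Finsupp.mapRange.linearMap f.hom.toLinearMap c - Finsupp.single 0 (f.hom x) = 0 := by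
    apply vander
    intro s
    rw [map_sub, ev_map, ← hN0 N0 le_rfl s, ev_single, pow_zero, one_smul, sub_eq_zero]
    exact Rep.hom_comm_apply f _ _
  have h2 := DFunLike.congr_fun h1 0
  rw [Finsupp.sub_apply, Finsupp.single_eq_same, Finsupp.zero_apply, sub_eq_zero] at h2
  exact h2.symm

/-- An invariant bilinear form is invariant in the first variable alone. -/
lemma bilin_inv {M M' : Rep.{0} ℂ GAinf} (h : W M) (h' : W M') (f : M ⊗ M' ⟶ 𝟙_ _)
    (g : GAinf) (x : M.V) (y : M'.V) :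
    f.hom ((M.ρ g x) ⊗ₜ[ℂ] y : M.V ⊗[ℂ] M'.V) = f.hom (x ⊗ₜ[ℂ] y : M.V ⊗[ℂ] M'.V) := by
  obtain ⟨c, hc⟩ := h.ex x
  obtain ⟨d, hd⟩ := h.ex (M.ρ g x)
  obtain ⟨c', hc'⟩ := h'.ex y
  have h1 := func_eq f (hc.tmul hc')
  have h2 := func_eq f (hd.tmul hc')
  rw [conv_zero] at h1 h2
  rw [h1, h2, h.inv g x c d hc hd]

/-- An invariant bilinear form is invariant in the second variable alone. -/
lemma bilin_inv' {M M' : Rep.{0} ℂ GAinf} (h : W M) (h' : W M') (f : M ⊗ M' ⟶ 𝟙_ _)
    (g : GAinf) (x : M.V) (y : M'.V) :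
    f.hom (x ⊗ₜ[ℂ] (M'.ρ g y) : M.V ⊗[ℂ] M'.V) = f.hom (x ⊗ₜ[ℂ] y : M.V ⊗[ℂ] M'.V) := by
  obtain ⟨c, hc⟩ := h.ex x
  obtain ⟨d, hd⟩ := h'.ex (M'.ρ g y)
  obtain ⟨c', hc'⟩ := h'.ex y
  have h1 := func_eq f (hc.tmul hc')
  have h2 := func_eq f (hc.tmul hd)
  rw [conv_zero] at h1 h2
  rw [h1, h2, h'.inv g y c' d hc' hd]

/-- Extension of invariant functionals. -/
lemma extend {M M' : Rep.{0} ℂ GAinf} (i : M ⟶ M') [Mono i] (h' : W M') (f : M ⟶ 𝟙_ _) :
    ∃ F : M' ⟶ 𝟙_ _, i ≫ F = f := by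
  have hi : Function.Injective i.hom := (Rep.mono_iff_injective i).mp inferInstance
  have h : W M := W_sub i h'
  obtain ⟨r, hr⟩ : ∃ r : M'.V →ₗ[ℂ] M.V, r ∘ₗ i.hom.toLinearMap = LinearMap.id :=
    LinearMap.exists_leftInverse_of_injective _ (LinearMap.ker_eq_bot.mpr hi)
  choose c hc using h'.ex
  let F0 : M'.V →ₗ[ℂ] ℂ :=
    { toFun := fun x => f.hom (r (c x 0))
      map_add' := fun x y => by
        rw [(hc (x + y)).unique ((hc x).add (hc y)), Finsupp.add_apply, map_add, map_add]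
      map_smul' := fun a x => by
        rw [(hc (a • x)).unique ((hc x).smul a), Finsupp.smul_apply, map_smul, map_smul,
          RingHom.id_apply] }
  refine ⟨Rep.ofHom ⟨F0, fun g => ?_⟩, ?_⟩
  · ext x
    show f.hom (r (c (M'.ρ g x) 0)) = f.hom (r (c x 0))
    rw [h'.inv g x _ _ (hc x) (hc _)]
  · ext x
    show f.hom (r (c (i.hom x) 0)) = f.hom x
    obtain ⟨d, hd⟩ := h.ex x
    rw [(hc _).unique (hd.map i), func_eq f hd]
    have := LinearMap.congr_fun hr (d 0)
    simp only [LinearMap.comp_apply, LinearMap.id_apply] at this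
    exact congrArg f.hom this

instance inj_unit : Injective (⟨𝟙_ _, isSubquot_unit _⟩ : Cat (std GAinf)) where
  factors {X Y} g f _ := by
    have hm : Mono ((IsSubquot (std GAinf)).ι.map f) := by
      have := (IsSubquot (std GAinf)).preservesMonomorphisms_ι_of_isNormalEpiCategory
      infer_instance
    obtain ⟨F, hF⟩ := extend ((IsSubquot (std GAinf)).ι.map f) (W_poly Y.2) g.hom
    exact ⟨ObjectProperty.homMk F, by ext1; exact hF⟩


end Pool.Agent.K1H1.GA
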